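import Pool.Agent.H45.TA.Count

/-! # UX.CntE : equality in the counting theorem `dpairs_le` (H45/TA/Count)

With the notation of the proof of `dpairs_le` (`n = card α`, `b p = |fib|`, `δ p = |dlt|`): `hlow : n 2^n ≤ ∑ b δ + n (2K)`, `hup : ∑ (b δ + n) ≤ ∑ (n b + [p = (∅,∅)] n)`, `∑ b = 2^n`,
`hone`.  If `2K + 1 ≤ |dpairs F|` then all these are equalities.  (a) so for each `e` the inequality `alike_card` is an equality: `2^n = |alike e| + 2K`, and in its proof
`2^n ≤ |alike e| + |side F e| + |side F e|`, hence `K ≤ |side F e|` (use `Finset.sum_lt_sum` for a contradiction: if `|side F e| < K` then `2^n < |alike e| + 2K` for this `e`).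
(b) for each `p ∈ dpairs F` `fib_delta` is an equality: `b δ + n = n b + [p = (∅,∅)] n`.  If `p ≠ (∅,∅)`: with `fib_card` `2 + δ ≤ 2 b` and `δ ≤ n - 2` (proof of `fib_delta`):
`2 n = 2 b (n - δ) ≥ (2 + δ)(n - δ) = 2n + δ (n - 2 - δ)`, so `δ = 0` or `n ≤ δ + 2`.  If `p = (∅,∅)`: `b δ = n b`, `b > 0` (`fib_nonempty`), so `δ = n`. -/

open Finset Pool.Agent.H45.TA

namespace Pool.Agent.H52.UX

variable {α : Type*} [Fintype α] [DecidableEq α]

/-- `alike_card` with the size of the side -/
private lemma alike_side (F : Finset (Finset α)) (e : α) :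
    2 ^ Fintype.card α ≤ ((univ : Finset (Finset α)).filter
      (fun P => e ∈ dlt F (inn F P) (inn F Pᶜ))).card + 2 * (side F e).card := by
  classical
  have h2 : ((side F e).image (fun P => Pᶜ)).card ≤ (side F e).card := Finset.card_image_le
  have h3 : (univ : Finset (Finset α)) ⊆ ((univ : Finset (Finset α)).filter
      (fun P => e ∈ dlt F (inn F P) (inn F Pᶜ))) ∪ (side F e)
      ∪ ((side F e).image (fun P => Pᶜ)) := by
    intro P _
    rw [Finset.mem_union, Finset.mem_union, Finset.mem_filter, mem_dlt, mem_side, Finset.mem_image]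
    by_cases ha : sees F e (inn F P)
    · by_cases hb : sees F e (inn F Pᶜ)
      · left; left
        exact ⟨Finset.mem_univ _, by tauto⟩
      · right
        refine ⟨Pᶜ, ?_, compl_compl P⟩
        rw [mem_side, compl_compl]
        exact ⟨hb, ha⟩
    · by_cases hb : sees F e (inn F Pᶜ)
      · left; right
        exact ⟨ha, hb⟩
      · left; left
        exact ⟨Finset.mem_univ _, by tauto⟩
  have h4 := Finset.card_le_card h3
  rw [Finset.card_univ, Fintype.card_finset] at h4
  have h5 := Finset.card_union_le (((univ : Finset (Finset α)).filter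
      (fun P => e ∈ dlt F (inn F P) (inn F Pᶜ))) ∪ (side F e))
      ((side F e).image (fun P => Pᶜ))
  have h6 := Finset.card_union_le ((univ : Finset (Finset α)).filter
      (fun P => e ∈ dlt F (inn F P) (inn F Pᶜ))) (side F e)
  omega

/-- equality in `fib_delta` -/
private lemma fib_delta_eq {F : Finset (Finset α)} (hF : Good F) {A B : Finset α} (hA : A ∈ F)
    (hB : B ∈ F) (hAB : Disjoint A B)
    (h0 : (fib F A B).card * (dlt F A B).card + Fintype.card α
      = Fintype.card α * (fib F A B).card + (if A = ∅ ∧ B = ∅ then Fintype.card α else 0)) :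
    (dlt F A B).card = 0 ∨ Fintype.card α ≤ (dlt F A B).card + 2 := by
  classical
  split_ifs at h0 with h
  · right
    have hb : 0 < (fib F A B).card := Finset.card_pos.mpr (fib_nonempty hF hA hB hAB)
    have h1 : (fib F A B).card * (dlt F A B).card = (fib F A B).card * Fintype.card α := by
      rw [Nat.mul_comm (fib F A B).card (Fintype.card α)]
      omega
    have h2 := Nat.eq_of_mul_eq_mul_left hb h1
    omega
  · have h2 : 2 ≤ (A ∪ B).card := by
      rcases not_and_or.mp h with hne | hne
      · have h1 : A.card ≠ 1 := by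
          have := hF.avoid A hA A hA
          rwa [Finset.inter_self] at this
        have h0 : 0 < A.card := Finset.card_pos.mpr (Finset.nonempty_iff_ne_empty.mpr hne)
        have := Finset.card_le_card (Finset.subset_union_left (s₁ := A) (s₂ := B))
        omega
      · have h1 : B.card ≠ 1 := by
          have := hF.avoid B hB B hB
          rwa [Finset.inter_self] at this
        have h0 : 0 < B.card := Finset.card_pos.mpr (Finset.nonempty_iff_ne_empty.mpr hne)
        have := Finset.card_le_card (Finset.subset_union_right (s₁ := A) (s₂ := B))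
        omega
    have hdis : Disjoint (dlt F A B) (A ∪ B) := by
      rw [Finset.disjoint_left]
      intro e he he'
      rw [Finset.mem_union] at he'
      rcases he' with h1 | h1
      · exact dlt_notMem_left hA hAB he h1
      · exact dlt_notMem_right hB hAB he h1
    have hc : (dlt F A B).card + 2 ≤ Fintype.card α := by
      have h3 := Finset.card_le_univ ((dlt F A B) ∪ (A ∪ B))
      rw [Finset.card_union_of_disjoint hdis] at h3
      omega
    have hb := fib_card hF hA hB hAB
    obtain ⟨k, hk⟩ := Nat.exists_eq_add_of_le hc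
    rw [hk, Nat.add_zero] at h0
    rw [hk]
    set d := (dlt F A B).card
    set b := (fib F A B).card
    rcases Nat.eq_zero_or_pos d with hd | hd
    · left
      exact hd
    · right
      rcases Nat.eq_zero_or_pos k with hk0 | hk0
      · omega
      · exfalso
        have h6 : (2 + d) * (2 + k) ≤ (2 * b) * (2 + k) := Nat.mul_le_mul_right _ hb
        have h7 : 0 < d * k := Nat.mul_pos hd hk0
        nlinarith

theorem dpairs_eq {F : Finset (Finset α)} (hF : Good F) (hn : 0 < Fintype.card α) (K : ℕ)
    (hK : ∀ 𝒰 : Finset (Finset α), (∀ P ∈ 𝒰, ∀ Q ∈ 𝒰, 2 ≤ (P ∩ Q).card) → 𝒰.card ≤ K)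
    (h : 2 * K + 1 ≤ (dpairs F).card) :
    (∀ e, K ≤ (side F e).card) ∧ ∀ p ∈ dpairs F,
      (dlt F p.1 p.2).card = 0 ∨ Fintype.card α ≤ (dlt F p.1 p.2).card + 2 := by
  classical
  set n := Fintype.card α with hnd
  -- the fibres partition the cube
  have hmap : ∀ P ∈ (univ : Finset (Finset α)), (inn F P, inn F Pᶜ) ∈ dpairs F := by
    intro P _
    rw [mem_dpairs]
    refine ⟨⟨inn_mem hF P, inn_mem hF Pᶜ⟩, ?_⟩
    exact Finset.disjoint_of_subset_left (inn_subset F P)
      (Finset.disjoint_of_subset_right (inn_subset F Pᶜ) disjoint_compl_right)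
  have hfibeq : ∀ p : Finset α × Finset α, (univ : Finset (Finset α)).filter
      (fun P => (inn F P, inn F Pᶜ) = p) = fib F p.1 p.2 := by
    intro p
    ext P
    rw [Finset.mem_filter, mem_fib, Prod.ext_iff]
    simp
  have hsum1 : ∑ p ∈ dpairs F, (fib F p.1 p.2).card = 2 ^ n := by
    rw [hnd, ← Fintype.card_finset (α := α), ← Finset.card_univ,
      Finset.card_eq_sum_card_fiberwise hmap]
    apply Finset.sum_congr rfl
    intro p _
    rw [hfibeq]
  have hsum2 : ∑ P : Finset α, (dlt F (inn F P) (inn F Pᶜ)).card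
      = ∑ p ∈ dpairs F, (fib F p.1 p.2).card * (dlt F p.1 p.2).card := by
    rw [← Finset.sum_fiberwise_of_maps_to hmap]
    apply Finset.sum_congr rfl
    intro p _
    rw [hfibeq, Finset.sum_congr rfl (g := fun _ => (dlt F p.1 p.2).card)]
    · rw [Finset.sum_const, smul_eq_mul]
    · intro P hP
      rw [mem_fib] at hP
      rw [hP.1, hP.2]
  have hsum3 : ∑ P : Finset α, (dlt F (inn F P) (inn F Pᶜ)).card
      = ∑ e : α, ((univ : Finset (Finset α)).filter
        (fun P => e ∈ dlt F (inn F P) (inn F Pᶜ))).card := by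
    simp only [Finset.card_eq_sum_ones, Finset.sum_filter]
    rw [Finset.sum_comm]
    apply Finset.sum_congr rfl
    intro P _
    rw [← Finset.sum_filter, Finset.filter_mem_eq_inter, Finset.univ_inter]
  have hlow : n * 2 ^ n ≤ ∑ p ∈ dpairs F, (fib F p.1 p.2).card * (dlt F p.1 p.2).card
      + n * (2 * K) := by
    rw [← hsum2, hsum3]
    have h1 : ∑ _e : α, 2 ^ n ≤ ∑ e : α, (((univ : Finset (Finset α)).filter
        (fun P => e ∈ dlt F (inn F P) (inn F Pᶜ))).card + 2 * K) :=
      Finset.sum_le_sum (fun e _ => alike_card hF K hK e)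
    rw [Finset.sum_const, Finset.sum_add_distrib, Finset.sum_const, Finset.card_univ, smul_eq_mul,
      smul_eq_mul] at h1
    exact h1
  have hup0 : ∀ p ∈ dpairs F, (fib F p.1 p.2).card * (dlt F p.1 p.2).card + n
      ≤ n * (fib F p.1 p.2).card + (if p.1 = ∅ ∧ p.2 = ∅ then n else 0) := by
    intro p hp
    rw [mem_dpairs] at hp
    exact fib_delta hF hp.1.1 hp.1.2 hp.2
  have hone : ∑ p ∈ dpairs F, (if p.1 = ∅ ∧ p.2 = ∅ then n else 0) ≤ n := by
    rw [← Finset.sum_filter, Finset.sum_const, smul_eq_mul]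
    have h1 : ((dpairs F).filter (fun p => p.1 = ∅ ∧ p.2 = ∅)).card ≤ 1 := by
      rw [Finset.card_le_one]
      intro a ha b hb
      rw [Finset.mem_filter] at ha hb
      exact Prod.ext (ha.2.1.trans hb.2.1.symm) (ha.2.2.trans hb.2.2.symm)
    calc _ ≤ 1 * n := Nat.mul_le_mul_right n h1
      _ = n := one_mul n
  have hcard : n * (2 * K + 1) ≤ (dpairs F).card * n := by
    rw [Nat.mul_comm (dpairs F).card n]
    exact Nat.mul_le_mul_left n h
  have hexp : n * (2 * K + 1) = n * (2 * K) + n := by ring
  constructor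
  · intro e
    by_contra hlt
    push Not at hlt
    have hup : ∑ p ∈ dpairs F, ((fib F p.1 p.2).card * (dlt F p.1 p.2).card + n)
        ≤ ∑ p ∈ dpairs F, (n * (fib F p.1 p.2).card + (if p.1 = ∅ ∧ p.2 = ∅ then n else 0)) :=
      Finset.sum_le_sum hup0
    rw [Finset.sum_add_distrib, Finset.sum_add_distrib, Finset.sum_const, smul_eq_mul,
      ← Finset.mul_sum, hsum1] at hup
    have hlow' : n * 2 ^ n < ∑ p ∈ dpairs F, (fib F p.1 p.2).card * (dlt F p.1 p.2).card
        + n * (2 * K) := by
      rw [← hsum2, hsum3]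
      have h1 : ∑ _e : α, 2 ^ n < ∑ e : α, (((univ : Finset (Finset α)).filter
          (fun P => e ∈ dlt F (inn F P) (inn F Pᶜ))).card + 2 * K) := by
        refine Finset.sum_lt_sum (fun e _ => alike_card hF K hK e) ⟨e, Finset.mem_univ e, ?_⟩
        have h2 := alike_side F e
        rw [← hnd] at h2
        omega
      rw [Finset.sum_const, Finset.sum_add_distrib, Finset.sum_const, Finset.card_univ, smul_eq_mul,
        smul_eq_mul] at h1
      exact h1
    omega
  · intro p hp
    have hp' := hp
    rw [mem_dpairs] at hp'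
    refine fib_delta_eq hF hp'.1.1 hp'.1.2 hp'.2 ?_
    by_contra hne
    have hlt : (fib F p.1 p.2).card * (dlt F p.1 p.2).card + n
      < n * (fib F p.1 p.2).card + (if p.1 = ∅ ∧ p.2 = ∅ then n else 0) :=
      lt_of_le_of_ne (hup0 p hp) hne
    have hup : ∑ p ∈ dpairs F, ((fib F p.1 p.2).card * (dlt F p.1 p.2).card + n)
        < ∑ p ∈ dpairs F, (n * (fib F p.1 p.2).card + (if p.1 = ∅ ∧ p.2 = ∅ then n else 0)) :=
      Finset.sum_lt_sum hup0 ⟨p, hp, hlt⟩
    rw [Finset.sum_add_distrib, Finset.sum_add_distrib, Finset.sum_const, smul_eq_mul,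
      ← Finset.mul_sum, hsum1] at hup
    omega

end Pool.Agent.H52.UX
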