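import Pool.Agent.H52.UX.Defs

/-! # UX.Conn : connectivity of the (complementary) Kneser graph

`C, D` of size `c` in `X`, `|X| < 2 c`.  Step: `|C \ D| = 1` (so `|D \ C| = 1`, `|C ∩ D| = c - 1`).  The set `X \ (C ∩ D)` has
`|X| - c + 1 ≤ c` elements; take `E` with `X \ (C ∩ D) ⊆ E ⊆ X`, `|E| = c` (`Finset.exists_subsuperset_card_eq`).  Then `C ∪ E = X`,
`D ∪ E = X`, so `P C ↔ P E ↔ P D`.  General: induction on `|C \ D|`; `0`: `C = D` (equal sizes).  `k + 1`: `u ∈ C \ D`,
`v ∈ D \ C`, `C' = insert v (C.erase u)`: `P C ↔ P C'` by the step and `|C' \ D| = k`. -/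

open Finset

namespace Pool.Agent.H52.UX

theorem conn {X : Finset ℕ} {c : ℕ} (hc : X.card < 2 * c) {P : Finset ℕ → Prop}
    (h : ∀ C ∈ X.powersetCard c, ∀ D ∈ X.powersetCard c, C ∪ D = X → (P C ↔ P D)) :
    ∀ C ∈ X.powersetCard c, ∀ D ∈ X.powersetCard c, (P C ↔ P D) := by
  have step : ∀ C ∈ X.powersetCard c, ∀ D ∈ X.powersetCard c, (C \ D).card = 1 → (P C ↔ P D) := by
    intro C hC D hD h1
    obtain ⟨hCX, hCc⟩ := mem_powersetCard.1 hC
    obtain ⟨hDX, hDc⟩ := mem_powersetCard.1 hD
    have hi : (C ∩ D).card + 1 = c := by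
      have := card_sdiff_add_card_inter C D
      omega
    have hs : (X \ (C ∩ D)).card ≤ c := by
      have h2 := card_sdiff_add_card_eq_card (s := C ∩ D) (t := X) (inter_subset_left.trans hCX)
      omega
    have hX : c ≤ X.card := hCc ▸ card_le_card hCX
    obtain ⟨E, hE1, hE2, hE3⟩ := exists_subsuperset_card_eq sdiff_subset hs hX
    have hE : E ∈ X.powersetCard c := mem_powersetCard.2 ⟨hE2, hE3⟩
    have hcov : ∀ Z : Finset ℕ, C ∩ D ⊆ Z → Z ⊆ X → Z ∪ E = X := by
      intro Z hZ hZX
      refine Subset.antisymm (union_subset hZX hE2) fun x hx => ?_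
      rw [mem_union]
      by_cases h3 : x ∈ C ∩ D
      · exact Or.inl (hZ h3)
      · exact Or.inr (hE1 (mem_sdiff.2 ⟨hx, h3⟩))
    exact (h C hC E hE (hcov C inter_subset_left hCX)).trans
      (h D hD E hE (hcov D inter_subset_right hDX)).symm
  intro C hC D hD
  generalize hk : (C \ D).card = k
  induction k generalizing C with
  | zero =>
    obtain ⟨hCX, hCc⟩ := mem_powersetCard.1 hC
    obtain ⟨hDX, hDc⟩ := mem_powersetCard.1 hD
    have h2 : C ⊆ D := sdiff_eq_empty_iff_subset.1 (card_eq_zero.1 hk)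
    rw [eq_of_subset_of_card_le h2 (by omega)]
  | succ k ih =>
    obtain ⟨hCX, hCc⟩ := mem_powersetCard.1 hC
    obtain ⟨hDX, hDc⟩ := mem_powersetCard.1 hD
    have hCD : (D \ C).card = k + 1 := by
      have h2 := card_sdiff_add_card_inter C D
      have h3 := card_sdiff_add_card_inter D C
      rw [inter_comm D C] at h3
      omega
    obtain ⟨u, hu⟩ : (C \ D).Nonempty := card_pos.1 (by omega)
    obtain ⟨v, hv⟩ : (D \ C).Nonempty := card_pos.1 (by omega)
    rw [mem_sdiff] at hu hv
    have hvC : v ∉ C.erase u := fun h2 => hv.2 (mem_of_mem_erase h2)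
    have hC' : insert v (C.erase u) ∈ X.powersetCard c := by
      refine mem_powersetCard.2 ⟨?_, ?_⟩
      · intro x hx
        rcases mem_insert.1 hx with rfl | h2
        · exact hDX hv.1
        · exact hCX (mem_of_mem_erase h2)
      · rw [card_insert_of_notMem hvC, card_erase_of_mem hu.1]
        have := card_pos.2 ⟨u, hu.1⟩
        omega
    have h2 : (C \ insert v (C.erase u)).card = 1 := by
      have : C \ insert v (C.erase u) = {u} := by
        ext x
        rw [mem_sdiff, mem_insert, mem_erase, mem_singleton]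
        constructor
        · rintro ⟨h3, h4⟩
          by_contra h5
          exact h4 (Or.inr ⟨h5, h3⟩)
        · rintro rfl
          refine ⟨hu.1, ?_⟩
          rintro (rfl | h5)
          · exact hv.2 hu.1
          · exact h5.1 rfl
      rw [this, card_singleton]
    have h3 : (insert v (C.erase u) \ D).card = k := by
      have : insert v (C.erase u) \ D = (C \ D).erase u := by
        ext x
        rw [mem_sdiff, mem_insert, mem_erase, mem_erase, mem_sdiff]
        constructor
        · rintro ⟨rfl | h4, h5⟩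
          · exact absurd hv.1 h5
          · exact ⟨h4.1, h4.2, h5⟩
        · rintro ⟨h4, h5, h6⟩
          exact ⟨Or.inr ⟨h4, h5⟩, h6⟩
      rw [this, card_erase_of_mem (mem_sdiff.2 hu), hk]
      rfl
    exact (step C hC _ hC' h2).trans (ih _ hC' h3)

end Pool.Agent.H52.UX
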