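import Pool.Agent.H37.AV.CoreA

/-! # UX.CoreS : the slack in the main inequality of H37/AV

Copy of the proof of `core` (H37/AV/CoreA).  There `cost_all` costs `rew / 4`, the four walls cost `rew / 16` each, and everything is compared with
`rew`, so `rew / 2` remains: `rows + rew / 2 ≤ 2 W(base)` (replace `hgoal` by this, same `nlinarith`), and
`2 W(Rm) ≤ 4 · rew / 16 = rew / 4` (`hRm'` and the walls), i.e. `4 W(Rm) ≤ rew / 2`. -/

open Finset Pool.Agent.H37 Pool.Agent.H37.AV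

namespace Pool.Agent.H52.UX

variable {n t w r m h1 hh M s c1 : ℕ} {α β θ : ℝ} {R : Finset (Finset ℕ)}

theorem core_slack (P : Prm n t w r m h1 hh M s c1 α β θ) (h : Av (Icc 1 n) t R)
    (hbig : ∀ A ∈ R, w ≤ A.card) :
    (rows (Icc 1 n) t R).card + 4 * WK.W n t (Rm t R) ≤ 2 * WK.W n t (WK.base n t) := by
  classical
  have ht1 : 1 ≤ t := by have := P.ht; omega
  have hθ := P.hθ
  have hθ1 := P.hθ1
  have hx := rew_nonneg (R := R) P
  have hacc := acc ht1 h
  rw [Nat.card_Icc, Nat.add_sub_cancel] at hacc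
  have h1' := u_main ht1 P.hn h P.hrm P.hrn
  have h2' := u_star ht1 P.hn h
  have h3' := u_fam ht1 P.hn h (cl3 n t s R) (cl3_int P h)
  have hc := cost_all P h hbig
  have w1 := wall_one P h hbig
  have w2 := wall_two P h hbig
  have w3 := wall_three P h hbig
  have w4 := neg_cost P h hbig
  -- the weight of `Rm`
  have hRm : WK.W n t (Rm t R) ≤ WK.W n t (cl1 n t s c1 R) + WK.W n t (cl2 n t s c1 R) +
      WK.W n t (cl3 n t s R) + WK.W n t (Ng (Icc 1 n) t R s) := by
    unfold WK.W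
    have hsub : Rm t R ⊆ cl1 n t s c1 R ∪ (cl2 n t s c1 R ∪ (cl3 n t s R ∪ Ng (Icc 1 n) t R s)) := by
      intro A hA
      by_cases hN : A ∈ Ng (Icc 1 n) t R s
      · simp [hN]
      · by_cases hc1 : (pt t R A).card ≤ c1
        · refine mem_union_left _ ?_
          unfold cl1
          rw [mem_filter]
          exact ⟨hA, hN, hc1⟩
        · refine mem_union_right _ ?_
          by_cases hc2 : 4 * (pt t R A).card ≤ 3 * n
          · refine mem_union_left _ ?_
            unfold cl2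
            rw [mem_filter]
            exact ⟨hA, hN, not_le.1 hc1, hc2⟩
          · refine mem_union_right _ (mem_union_left _ ?_)
            unfold cl3
            rw [mem_filter]
            exact ⟨hA, hN, not_le.1 hc2⟩
    refine le_trans (Finset.sum_le_sum_of_subset hsub) ?_
    have u1 := Finset.sum_union_inter (s₁ := cl1 n t s c1 R)
      (s₂ := cl2 n t s c1 R ∪ (cl3 n t s R ∪ Ng (Icc 1 n) t R s))
      (f := fun A => WK.sb t (n - A.card))
    have u2 := Finset.sum_union_inter (s₁ := cl2 n t s c1 R)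
      (s₂ := cl3 n t s R ∪ Ng (Icc 1 n) t R s) (f := fun A => WK.sb t (n - A.card))
    have u3 := Finset.sum_union_inter (s₁ := cl3 n t s R)
      (s₂ := Ng (Icc 1 n) t R s) (f := fun A => WK.sb t (n - A.card))
    omega
  have hRm' : (WK.W n t (Rm t R) : ℝ) ≤ WK.W n t (cl1 n t s c1 R) + WK.W n t (cl2 n t s c1 R) +
      WK.W n t (cl3 n t s R) + WK.W n t (Ng (Icc 1 n) t R s) := by exact_mod_cast hRm
  -- the sum of `pr` over `S2`, symmetrised
  have hsym : ∑ σ ∈ S2 (Icc 1 n) t R, pr n r m σ.2.card =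
      ∑ σ ∈ S2 (Icc 1 n) t R, pr n r m σ.1.card :=
    sum_S2_swap (fun σ => pr n r m σ.1.card)
  have hsplit : ∑ σ ∈ S2 (Icc 1 n) t R, (1 - pr n r m σ.1.card - pr n r m σ.2.card) =
      (S2 (Icc 1 n) t R).card - 2 * ∑ σ ∈ S2 (Icc 1 n) t R, pr n r m σ.1.card := by
    rw [Finset.sum_sub_distrib, Finset.sum_sub_distrib, hsym]
    simp only [Finset.sum_const, nsmul_eq_mul, mul_one]
    ring
  rw [hsplit] at hc
  -- the reward
  have hrho : ∑ σ ∈ S1 (Icc 1 n) t R, rho n t r m θ (cl3 n t s R) σ.1 =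
      (1 - 2 * θ) * ∑ σ ∈ S1 (Icc 1 n) t R, pr n r m σ.1.card +
        θ * ∑ σ ∈ S1 (Icc 1 n) t R, st n t σ.1.card +
        θ * ∑ σ ∈ S1 (Icc 1 n) t R, (if ∃ A ∈ cl3 n t s R, A ⊆ σ.1 then (1 : ℝ) else 0) := by
    unfold rho
    rw [Finset.sum_add_distrib, Finset.sum_add_distrib, Finset.mul_sum, Finset.mul_sum,
      Finset.mul_sum]
  have hrew : rew n t r m s θ R = (N2 (Icc 1 n) t R).card / Bd t +
      2 * ∑ σ ∈ S1 (Icc 1 n) t R, rho n t r m θ (cl3 n t s R) σ.1 := rfl
  rw [hrho] at hrew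
  have hgoal : ((rows (Icc 1 n) t R).card : ℝ) + 4 * (WK.W n t (Rm t R) : ℝ) ≤
      2 * (WK.W n t (WK.base n t) : ℝ) := by
    have k1 := mul_le_mul_of_nonneg_left h1' (show (0 : ℝ) ≤ 1 - 2 * θ by linarith)
    have k2 := mul_le_mul_of_nonneg_left h2' hθ.le
    have k3 := mul_le_mul_of_nonneg_left h3' hθ.le
    have k4 : 6 * (WK.W n t (Rm t R) : ℝ) ≤ 3 / 4 * rew n t r m s θ R := by linarith
    nlinarith
  exact_mod_cast hgoal

end Pool.Agent.H52.UX
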