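import Pool.Agent.H26.LT.COne

/-! # UX.Cov : families with singletons, `t = 1`, distinct members

Everything is in the proof of `weak_bound` (H26/LT/COne; copy): `cov_sub` = `hV₁`, `cov_strong` = `hs₁`, `cov_card` = `hVc`, `cov` from `hcov`, `hSc`, `hu1`, `hu2`, `hu3`, `Finset.offDiag_card` and
`two_mul_disjPairs`. -/

open Finset Pool.Agent.H45.TA Pool.Agent.H26.LT.COne

namespace Pool.Agent.H52.UX

/-- the elements `x` with `{x} ∈ F` -/
def Xs (n : ℕ) (F : Finset (Finset ℕ)) : Finset ℕ := (Icc 1 n).filter (fun x => {x} ∈ F)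

/-- the other members -/
def Fs (F : Finset (Finset ℕ)) : Finset (Finset ℕ) := F.filter (fun A => A.card ≠ 1)

variable {n : ℕ} {F : Finset (Finset ℕ)}

theorem cov_sub (hV : ∀ A ∈ F, A ⊆ Icc 1 n) (hF : IsAvoiding 1 F) :
    ∀ A ∈ Fs F, A ⊆ Icc 1 n \ Xs n F := by
  intro A hA x hx
  unfold Fs at hA
  rw [Finset.mem_filter] at hA
  rw [Finset.mem_sdiff]
  refine ⟨hV A hA.1 hx, ?_⟩
  intro hxX
  unfold Xs at hxX
  rw [Finset.mem_filter] at hxX
  apply hF A hA.1 {x} hxX.2
  · intro h
    apply hA.2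
    rw [h]
    exact Finset.card_singleton x
  · rw [Finset.inter_singleton_of_mem hx]
    exact Finset.card_singleton x

theorem cov_strong (hF : IsAvoiding 1 F) : IsStronglyAvoiding 1 (Fs F) := by
  intro A hA B hB
  unfold Fs at hA hB
  by_cases hAB : A = B
  · subst hAB
    rw [Finset.inter_self]
    exact (Finset.mem_filter.mp hA).2
  · exact hF A (Finset.mem_filter.mp hA).1 B (Finset.mem_filter.mp hB).1 hAB

theorem cov_card (n : ℕ) (F : Finset (Finset ℕ)) :
    (Xs n F).card ≤ n ∧ (Icc 1 n \ Xs n F).card = n - (Xs n F).card := by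
  constructor
  · have := Finset.card_le_card (Finset.filter_subset (fun x => {x} ∈ F) (Icc 1 n))
    rw [Nat.card_Icc, Nat.add_sub_cancel] at this
    exact this
  · unfold Xs
    rw [Finset.card_sdiff_of_subset (Finset.filter_subset _ _), Nat.card_Icc, Nat.add_sub_cancel]

theorem cov (hV : ∀ A ∈ F, A ⊆ Icc 1 n) (hF : IsAvoiding 1 F) :
    2 * disjPairs F + (if ∅ ∈ F then 1 else 0) + (Xs n F).card ≤
      (opairs (Fs F)).card + 2 * ((Xs n F).card * (Fs F).card) + (Xs n F).card * (Xs n F).card := by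
  classical
  set X : Finset ℕ := Xs n F with hX
  set F₁ := Fs F with hF₁
  set S := F.filter (fun A => ¬ A.card ≠ 1) with hS
  have hSc : S.card = X.card := by
    have : S = X.image (fun x => {x}) := by
      ext A
      rw [hS, Finset.mem_filter, Finset.mem_image, Classical.not_not]
      constructor
      · rintro ⟨hA, hc⟩
        obtain ⟨x, rfl⟩ := Finset.card_eq_one.mp hc
        refine ⟨x, ?_, rfl⟩
        rw [hX]
        unfold Xs
        rw [Finset.mem_filter]
        exact ⟨hV _ hA (Finset.mem_singleton_self x), hA⟩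
      · rintro ⟨x, hx, rfl⟩
        rw [hX] at hx
        unfold Xs at hx
        rw [Finset.mem_filter] at hx
        exact ⟨hx.2, Finset.card_singleton x⟩
    rw [this, Finset.card_image_of_injective _ Finset.singleton_injective]
  have hF₁m : ∀ A, A ∈ F₁ ↔ A ∈ F ∧ A.card ≠ 1 := by
    intro A
    rw [hF₁]
    unfold Fs
    rw [Finset.mem_filter]
  -- the ordered pairs
  have hcov : opairs F ⊆ opairs F₁ ∪ (S ×ˢ F₁ ∪ F₁ ×ˢ S) ∪ S.offDiag := by
    intro p hp
    unfold opairs at hp ⊢
    rw [Finset.mem_filter, Finset.mem_product] at hp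
    simp only [Finset.mem_union, Finset.mem_filter, Finset.mem_product, Finset.mem_offDiag]
    by_cases h1 : p.1.card ≠ 1
    · have h1' : p.1 ∈ F₁ := (hF₁m _).mpr ⟨hp.1.1, h1⟩
      by_cases h2 : p.2.card ≠ 1
      · left; left
        exact ⟨⟨h1', (hF₁m _).mpr ⟨hp.1.2, h2⟩⟩, hp.2⟩
      · left; right; right
        exact ⟨h1', Finset.mem_filter.mpr ⟨hp.1.2, h2⟩⟩
    · have h1' : p.1 ∈ S := Finset.mem_filter.mpr ⟨hp.1.1, h1⟩
      by_cases h2 : p.2.card ≠ 1
      · left; right; left
        exact ⟨h1', (hF₁m _).mpr ⟨hp.1.2, h2⟩⟩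
      · right
        refine ⟨h1', Finset.mem_filter.mpr ⟨hp.1.2, h2⟩, ?_⟩
        intro he
        have h3 := hp.2
        rw [← he, disjoint_self] at h3
        apply h1
        rw [h3]
        simp
  have hcard := Finset.card_le_card hcov
  have hu1 := Finset.card_union_le (opairs F₁ ∪ (S ×ˢ F₁ ∪ F₁ ×ˢ S)) S.offDiag
  have hu2 := Finset.card_union_le (opairs F₁) (S ×ˢ F₁ ∪ F₁ ×ˢ S)
  have hu3 := Finset.card_union_le (S ×ˢ F₁) (F₁ ×ˢ S)
  rw [Finset.card_product, Finset.card_product] at hu3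
  rw [Finset.offDiag_card] at hu1
  have h2d := two_mul_disjPairs F
  rw [hSc] at hu1 hu3
  have hss : X.card * X.card - X.card + X.card = X.card * X.card :=
    Nat.sub_add_cancel (Nat.le_mul_self X.card)
  have hcomm : F₁.card * X.card = X.card * F₁.card := Nat.mul_comm _ _
  omega

end Pool.Agent.H52.UX
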