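import Pool.Agent.H52.UX.Defs
import Pool.Agent.H26.LT.COdd

/-! # UX.Cpy : images under permutations

`disjPairs_copy`: `A ↦ A.image σ` is injective on finite sets of integers (`Finset.image_injective σ.injective`), `A.image σ ∩ B.image σ = (A ∩ B).image σ` (`Finset.image_inter`); so `P ↦ P.image (fun A => A.image σ)`
is a bijection between the two-element subfamilies with disjoint members (`Finset.card_bij`, or card of an image under an injective map and set equality).
`star_copy`: `σ = Equiv.swap 1 x`, `1 ∈ Icc 1 n` since `x ∈ Icc 1 n`; `σ` maps `Icc 1 n` onto itself, `σ (σ i) = i`, `A = (A.image σ).image σ`; `|(A.image σ).erase x| = |A.erase 1|` (`σ 1 = x`).  Both inclusions with `mem_bV`.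
`odd_copy`: `σ = Equiv.swap 1 x` again; `COdd.G n = insert ∅ (insert {1} (L n))`, `L n` = the subsets `A` of `Icc 2 n` with `n + 1 ≤ 2|A|`; `|(Icc 1 n).erase x| + 1 = n` is odd, `bV ((Icc 1 n).erase x) 1 x` = the subsets of `(Icc 1 n).erase x` with
`n + 1 ≤ 2|A|`; `σ` maps `Icc 2 n = (Icc 1 n).erase 1` onto `(Icc 1 n).erase x`. -/

open Finset Pool.Agent.H37

namespace Pool.Agent.H52.UX

theorem disjPairs_copy {n : ℕ} {F G : Finset (Finset ℕ)} (h : IsCopy n F G) :
    WK.disjPairs F = WK.disjPairs G := by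
  obtain ⟨σ, -, rfl⟩ := h
  have hψ : Function.Injective (fun A : Finset ℕ => A.image σ) := Finset.image_injective σ.injective
  symm
  unfold WK.disjPairs
  refine Finset.card_bij (fun P _ => P.image (fun A => A.image σ)) ?_ ?_ ?_
  · intro P hP
    rw [mem_filter, mem_powersetCard] at hP ⊢
    refine ⟨⟨image_subset_image hP.1.1, ?_⟩, ?_⟩
    · rw [card_image_of_injective _ hψ]; exact hP.1.2
    · intro A hA B hB hAB
      obtain ⟨A', hA', rfl⟩ := mem_image.mp hA
      obtain ⟨B', hB', rfl⟩ := mem_image.mp hB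
      have h1 : A' ∩ B' = ∅ := hP.2 A' hA' B' hB' (fun h => hAB (by rw [h]))
      rw [← image_inter _ _ σ.injective, h1, image_empty]
  · intro P _ Q _ hPQ
    exact Finset.image_injective hψ hPQ
  · intro Q hQ
    rw [mem_filter, mem_powersetCard] at hQ
    obtain ⟨P, hPG, rfl⟩ := subset_image_iff.mp hQ.1.1
    refine ⟨P, ?_, rfl⟩
    rw [mem_filter, mem_powersetCard]
    refine ⟨⟨hPG, ?_⟩, ?_⟩
    · rw [← card_image_of_injective P hψ]; exact hQ.1.2
    · intro A hA B hB hAB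
      have h1 := hQ.2 _ (mem_image_of_mem _ hA) _ (mem_image_of_mem _ hB) (fun h => hAB (hψ h))
      rw [← image_inter _ _ σ.injective, image_eq_empty] at h1
      exact h1

private lemma sw_mem {n x : ℕ} (hx : x ∈ Icc 1 n) : ∀ i ∈ Icc 1 n, Equiv.swap 1 x i ∈ Icc 1 n := by
  intro i hi
  rw [mem_Icc] at hx hi ⊢
  rw [Equiv.swap_apply_def]
  split_ifs <;> omega

private lemma sw_sw (x : ℕ) (A : Finset ℕ) : (A.image (Equiv.swap 1 x)).image (Equiv.swap 1 x) = A := by
  rw [image_image]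
  have : (⇑(Equiv.swap 1 x) ∘ ⇑(Equiv.swap 1 x)) = id := by
    funext i
    simp
  rw [this, image_id]

private lemma sw_sub {n x : ℕ} (hx : x ∈ Icc 1 n) {A : Finset ℕ} (hA : A ⊆ Icc 1 n) :
    A.image (Equiv.swap 1 x) ⊆ Icc 1 n := by
  intro i hi
  obtain ⟨j, hj, rfl⟩ := mem_image.mp hi
  exact sw_mem hx j (hA hj)

private lemma sw_card (x : ℕ) (A : Finset ℕ) : (A.image (Equiv.swap 1 x)).card = A.card :=
  card_image_of_injective _ (Equiv.injective _)

private lemma sw_erase (x a : ℕ) (A : Finset ℕ) :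
    (A.image (Equiv.swap 1 x)).erase (Equiv.swap 1 x a) = (A.erase a).image (Equiv.swap 1 x) := by
  rw [image_erase (Equiv.injective _)]

theorem star_copy {n t x : ℕ} (hx : x ∈ Icc 1 n) :
    IsCopy n (bV (Icc 1 n) t x ∪ WK.small n t) (WK.starFamily n t) := by
  have key : ∀ (a b : ℕ), Equiv.swap 1 x a = b → ∀ A, A ∈ bV (Icc 1 n) t a ∪ WK.small n t →
      A.image (Equiv.swap 1 x) ∈ bV (Icc 1 n) t b ∪ WK.small n t := by
    intro a b hab A hA
    rw [mem_union] at hA ⊢
    rcases hA with hA | hA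
    · left
      rw [mem_bV] at hA ⊢
      refine ⟨sw_sub hx hA.1, ?_⟩
      rw [sw_card, ← hab, sw_erase, sw_card]
      exact hA.2
    · right
      rw [WK.small, mem_filter, mem_powerset] at hA ⊢
      rw [sw_card]
      exact ⟨sw_sub hx hA.1, hA.2⟩
  refine ⟨Equiv.swap 1 x, sw_mem hx, ?_⟩
  rw [WK.starFamily, ← bV_base]
  ext A
  rw [mem_image]
  constructor
  · intro hA
    exact ⟨A.image (Equiv.swap 1 x), key x 1 (Equiv.swap_apply_right 1 x) A hA, sw_sw x A⟩
  · rintro ⟨B, hB, rfl⟩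
    exact key 1 x (Equiv.swap_apply_left 1 x) B hB

theorem one_small (n x : ℕ) : insert ∅ (bV (Icc 1 n) 1 x) = bV (Icc 1 n) 1 x ∪ WK.small n 1 := by
  have h : WK.small n 1 = {∅} := by
    ext A
    rw [WK.small, mem_filter, mem_powerset, mem_singleton]
    constructor
    · rintro ⟨_, h⟩
      exact card_eq_zero.mp (by omega)
    · rintro rfl
      exact ⟨empty_subset _, by simp⟩
  rw [h, union_comm]
  rfl

theorem odd_copy {n x : ℕ} (ho : Odd n) (hx : x ∈ Icc 1 n) :
    IsCopy n (insert ∅ (insert {x} (bV ((Icc 1 n).erase x) 1 x))) (Pool.Agent.H26.LT.COdd.G n) := by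
  have hn : 1 ≤ n := by
    rw [mem_Icc] at hx; omega
  have hcard : ((Icc 1 n).erase x).card + 1 = n := by
    rw [card_erase_of_mem hx, Nat.card_Icc]; omega
  have hmem : ∀ A, A ∈ bV ((Icc 1 n).erase x) 1 x ↔ A ⊆ (Icc 1 n).erase x ∧ n + 1 ≤ 2 * A.card := by
    intro A
    rw [mem_bV, hcard]
    constructor
    · rintro ⟨h1, h2 | h2⟩
      · exact ⟨h1, h2.2⟩
      · exact absurd ho h2.1
    · rintro ⟨h1, h2⟩
      exact ⟨h1, Or.inl ⟨ho, h2⟩⟩
  have hL : ∀ A, A ∈ Pool.Agent.H26.LT.COdd.L n ↔ A ⊆ (Icc 1 n).erase 1 ∧ n + 1 ≤ 2 * A.card := by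
    intro A
    rw [Pool.Agent.H26.LT.COdd.L, mem_filter, mem_powerset]
    have : (Icc 1 n).erase 1 = Icc 2 n := by
      ext i
      rw [mem_erase, mem_Icc, mem_Icc]
      omega
    rw [this]
  have hsub : ∀ a b : ℕ, Equiv.swap 1 x a = b → ∀ A ⊆ (Icc 1 n).erase a,
      A.image (Equiv.swap 1 x) ⊆ (Icc 1 n).erase b := by
    intro a b hab A hA i hi
    obtain ⟨j, hj, rfl⟩ := mem_image.mp hi
    have h1 := hA hj
    rw [mem_erase] at h1 ⊢
    refine ⟨fun h => h1.1 ?_, sw_mem hx j h1.2⟩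
    rw [← hab] at h
    exact (Equiv.injective _) h
  refine ⟨Equiv.swap 1 x, sw_mem hx, ?_⟩
  rw [Pool.Agent.H26.LT.COdd.G, image_insert, image_insert, image_empty, image_singleton,
    Equiv.swap_apply_left]
  congr 2
  ext A
  rw [mem_image, hmem]
  constructor
  · rintro ⟨h1, h2⟩
    refine ⟨A.image (Equiv.swap 1 x), ?_, sw_sw x A⟩
    rw [hL, sw_card]
    exact ⟨hsub x 1 (Equiv.swap_apply_right 1 x) A h1, h2⟩
  · rintro ⟨B, hB, rfl⟩
    rw [hL] at hB
    rw [sw_card]
    exact ⟨hsub 1 x (Equiv.swap_apply_left 1 x) B hB.1, hB.2⟩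

end Pool.Agent.H52.UX
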