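import Pool.Agent.H37.WK.Trans

/-! # UX.Defs : definitions for the extremal families of MP_28c1b3_co (complete)

`bV V t x` is the family `F(n,t)` on the ground set `V` with exceptional element `x` (used only if
`|V| + t` is even); `bV (Icc 1 n) t 1 = WK.base n t`. -/

open Finset Pool.Agent.H37

namespace Pool.Agent.H52.UX

/-- `F(n,t)` on the ground set `V` with the exceptional element `x`. -/
def bV (V : Finset ℕ) (t x : ℕ) : Finset (Finset ℕ) :=
  if Odd (V.card + t) then V.powerset.filter (fun A => V.card + t + 1 ≤ 2 * A.card)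
  else V.powerset.filter (fun A => V.card + t ≤ 2 * (A.erase x).card)

lemma mem_bV {V : Finset ℕ} {t x : ℕ} {A : Finset ℕ} : A ∈ bV V t x ↔ A ⊆ V ∧
    ((Odd (V.card + t) ∧ V.card + t + 1 ≤ 2 * A.card) ∨
      (¬ Odd (V.card + t) ∧ V.card + t ≤ 2 * (A.erase x).card)) := by
  unfold bV
  split_ifs with h <;> simp [h]

lemma bV_base (n t : ℕ) : bV (Icc 1 n) t 1 = WK.base n t := by
  unfold bV WK.base
  rw [Nat.card_Icc, Nat.add_sub_cancel]
  split_ifs with h
  · rfl
  · refine filter_congr fun A hA => ?_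
    have e : A ∩ (Icc 1 n \ {1}) = A.erase 1 := by
      ext x
      simp only [mem_inter, mem_sdiff, mem_singleton, mem_erase]
      constructor
      · rintro ⟨h1, _, h2⟩
        exact ⟨h2, h1⟩
      · rintro ⟨h1, h2⟩
        exact ⟨h2, mem_powerset.1 hA h2, h1⟩
    rw [e]

/-- `F` is the image of `G` under a permutation of `[n]`. -/
def IsCopy (n : ℕ) (F G : Finset (Finset ℕ)) : Prop :=
  ∃ σ : Equiv.Perm ℕ, (∀ i ∈ Icc 1 n, σ i ∈ Icc 1 n) ∧ F = G.image (fun A => A.image σ)

end Pool.Agent.H52.UX
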