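import Pool.Agent.H52.UX.KatU
import Pool.Agent.H52.UX.CntE

/-! # UX.GoodE : nonempty members of an extremal good family, `t = 1`, `n` even

`n = 2m`.  `dpairs_eq` with `K = kk n` (`katona`): `kk n ≤ |side F e|` for all `e`; `side F e` is two-intersecting (`side_inter`), so `katona_unique`: `P ∈ side F e ↔ n + 2 ≤ 2 |P|`.
`e ∈ dlt F (inn F P) (inn F Pᶜ)` iff `P ∉ side F e` and `Pᶜ ∉ side F e` (`mem_side`, `mem_dlt`, `compl_compl`).  Let `|P| = m`: then `|Pᶜ| = m`, so every `e` is in this set, hence not in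
`inn F P` (`dlt_notMem_left` with `inn_mem`; `inn F P`, `inn F Pᶜ` are disjoint): `inn F P = ∅`.  If `A ∈ F`, `|A| ≤ m`: take `P ⊇ A` with `|P| = m` (`Finset.exists_superset_card_eq` or
`exists_subsuperset_card_eq`), `A ⊆ inn F P = ∅` (`subset_inn`). -/

open Finset Pool.Agent.H37 Pool.Agent.H45.TA

namespace Pool.Agent.H52.UX

variable {n : ℕ} {F : Finset (Finset (Fin n))}

theorem good_even (hn : 4 ≤ n) (he : Even n) (hF : Good F) (h : 2 * kk n + 1 ≤ (dpairs F).card) :
    ∀ A ∈ F, A ≠ ∅ → n + 2 ≤ 2 * A.card := by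
  have hcard : Fintype.card (Fin n) = n := Fintype.card_fin n
  obtain ⟨h1, -⟩ := dpairs_eq hF (by rw [hcard]; omega) (kk n) (fun 𝒰 hU => katona 𝒰 hU) h
  have hs : ∀ e P, P ∈ side F e ↔ n + 2 ≤ 2 * P.card := by
    intro e P
    obtain ⟨x, hx⟩ := katona_unique hn (side F e) (fun P hP Q hQ => side_inter hF e hP hQ) (h1 e)
    rw [hx P]
    constructor
    · rintro (h2 | h2)
      · exact h2.2
      · exact absurd he h2.1
    · exact fun h2 => Or.inl ⟨he, h2⟩
  have key : ∀ P : Finset (Fin n), 2 * P.card = n → inn F P = ∅ := by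
    intro P hP
    have hPc : 2 * Pᶜ.card = n := by
      rw [Finset.card_compl, hcard]
      omega
    rw [Finset.eq_empty_iff_forall_notMem]
    intro e
    have h2 : P ∉ side F e := fun h3 => by have := (hs e P).1 h3; omega
    have h3 : Pᶜ ∉ side F e := fun h3 => by have := (hs e Pᶜ).1 h3; omega
    rw [mem_side] at h2 h3
    rw [compl_compl] at h3
    have h4 : e ∈ dlt F (inn F P) (inn F Pᶜ) := by
      rw [mem_dlt]
      tauto
    refine dlt_notMem_left (inn_mem hF P) ?_ h4
    exact Finset.disjoint_of_subset_left (inn_subset F P)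
      (Finset.disjoint_of_subset_right (inn_subset F Pᶜ) disjoint_compl_right)
  intro A hA hA0
  by_contra hcon
  obtain ⟨m, hm⟩ := he
  have hAc : A.card ≤ m := by omega
  obtain ⟨P, hAP, hPc⟩ := Finset.exists_superset_card_eq hAc (by rw [hcard]; omega)
  have h2 := subset_inn hA hAP
  rw [key P (by omega), Finset.subset_empty] at h2
  exact hA0 h2

end Pool.Agent.H52.UX
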