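import Pool.Agent.H52.UX.KatU
import Pool.Agent.H52.UX.CntE

/-! # UX.GoodO : nonempty members of an extremal good family, `t = 1`, `n` odd

`n = 2m + 1`, `m ≥ 3`.  `dpairs_eq` with `K = kk n` (`katona`): `kk n ≤ |side F e|` for all `e`; `side F e` is two-intersecting (`side_inter`), so `katona_unique` gives `x e` with
`P ∈ side F e ↔ n + 1 ≤ 2 |P.erase (x e)|`.  `e ∈ dlt F (inn F P) (inn F Pᶜ)` iff `P ∉ side F e` and `Pᶜ ∉ side F e` (`mem_side`, `mem_dlt`, `compl_compl`).
Let `|P| = m + 1`: `|Pᶜ| = m`, `Pᶜ` is in no `side F e`, `P ∈ side F e ↔ x e ∉ P`; so `δ(P) = |dlt F (inn F P) (inn F Pᶜ)| = #{e : x e ∈ P}`, and by `dpairs_eq` it is `0` or `≥ n - 2`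
(`(inn F P, inn F Pᶜ) ∈ dpairs F`, `hmap` in `dpairs_le`).
The map `x` is constant.  Suppose it takes two different values.  (*) If `y` is a value and `y ∈ P`, `|P| = m + 1`, then `δ(P) ≥ 1`, so at most two `e` have `x e ∉ P`.
If some value `w` is taken at least three times: let `y ≠ w` be another value and `P ∋ y`, `w ∉ P`: three `e` with `x e ∉ P`, contradiction to (*).  Otherwise every value is taken at most
twice, so there are at least four values (`n ≥ 7`): `y` and three others, `P ∋ y` without the three others (`|Pᶜ| = m ≥ 3`): contradiction to (*).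
So `x e = x` for all `e` (`n > 0`).  For `x ∈ P`, `|P| = m + 1`: every `e` is in `dlt F (inn F P) (inn F Pᶜ)`, hence not in `inn F P` (`dlt_notMem_left` with `inn_mem`; `inn F P`, `inn F Pᶜ` are
disjoint): `inn F P = ∅`.  If `A ∈ F`, `|A.erase x| ≤ m`: there is `Q ⊇ A.erase x`, `|Q| = m`, `x ∉ Q`; `A ⊆ P = insert x Q`, `A ⊆ inn F P = ∅` (`subset_inn`). -/

open Finset Pool.Agent.H37 Pool.Agent.H45.TA

namespace Pool.Agent.H52.UX

variable {n : ℕ} {F : Finset (Finset (Fin n))}

theorem good_odd (hn : 7 ≤ n) (ho : ¬ Even n) (hF : Good F)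
    (h : 2 * kk n + 1 ≤ (dpairs F).card) :
    ∃ x : Fin n, ∀ A ∈ F, A ≠ ∅ → n + 1 ≤ 2 * (A.erase x).card := by
  classical
  obtain ⟨m, hm⟩ : ∃ m, n = 2 * m + 1 := by
    rcases Nat.even_or_odd n with h1 | h1
    · exact absurd h1 ho
    · obtain ⟨k, hk⟩ := h1
      exact ⟨k, hk⟩
  have hm3 : 3 ≤ m := by omega
  obtain ⟨hside, hdl⟩ := dpairs_eq hF (by rw [Fintype.card_fin]; omega) (kk n)
    (fun 𝒰 hi => katona 𝒰 hi) h
  have hex : ∀ e : Fin n, ∃ x : Fin n, ∀ P, P ∈ side F e ↔ n + 1 ≤ 2 * (P.erase x).card := by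
    intro e
    obtain ⟨x, hx⟩ := katona_unique (by omega) (side F e)
      (fun P hP Q hQ => side_inter hF e hP hQ) (hside e)
    refine ⟨x, fun P => ?_⟩
    rw [hx P]
    constructor
    · rintro (⟨h1, -⟩ | ⟨-, h1⟩)
      · exact absurd h1 ho
      · exact h1
    · intro h1
      exact Or.inr ⟨ho, h1⟩
  choose x hx using hex
  -- the middle layer
  have hmid : ∀ P : Finset (Fin n), P.card = m + 1 → ∀ e : Fin n,
      e ∈ dlt F (inn F P) (inn F Pᶜ) ↔ x e ∈ P := by
    intro P hP e
    have hPc : Pᶜ.card = m := by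
      rw [Finset.card_compl, Fintype.card_fin]
      omega
    have h1 : P ∈ side F e ↔ x e ∉ P := by
      rw [hx e P]
      by_cases h2 : x e ∈ P
      · rw [Finset.card_erase_of_mem h2]
        constructor
        · intro h3
          omega
        · intro h3
          exact absurd h2 h3
      · rw [Finset.erase_eq_of_notMem h2]
        constructor
        · intro _
          exact h2
        · intro _
          omega
    have h2 : Pᶜ ∉ side F e := by
      rw [hx e Pᶜ]
      have h3 := Finset.card_erase_le (s := Pᶜ) (a := x e)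
      omega
    have h3 : e ∈ dlt F (inn F P) (inn F Pᶜ) ↔ ¬ P ∈ side F e := by
      rw [mem_side, compl_compl] at h2
      rw [mem_dlt, mem_side]
      tauto
    rw [h3, h1, not_not]
  have hdj : ∀ P : Finset (Fin n), Disjoint (inn F P) (inn F Pᶜ) := fun P =>
    Finset.disjoint_of_subset_left (inn_subset F P)
      (Finset.disjoint_of_subset_right (inn_subset F Pᶜ) disjoint_compl_right)
  -- few values outside
  have hfew : ∀ (e₀ : Fin n) (T : Finset (Fin n)), x e₀ ∉ T → T.card ≤ 3 →
      (univ.filter fun e => x e ∈ T).card ≤ 2 := by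
    intro e₀ T hT hT3
    obtain ⟨P, hP1, hP2, hP3⟩ := Finset.exists_subsuperset_card_eq (s := {x e₀}) (t := Tᶜ)
      (n := m + 1) (by
        rw [Finset.singleton_subset_iff, Finset.mem_compl]
        exact hT) (by rw [Finset.card_singleton]; omega) (by
        rw [Finset.card_compl, Fintype.card_fin]
        omega)
    have h1 := hmid P hP3
    have h2 := hdl (inn F P, inn F Pᶜ) (mem_dpairs.2 ⟨⟨inn_mem hF P, inn_mem hF Pᶜ⟩, hdj P⟩)
    rw [Fintype.card_fin] at h2
    have h3 : dlt F (inn F P) (inn F Pᶜ) = univ.filter fun e => x e ∈ P := by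
      ext e
      rw [h1 e, Finset.mem_filter]
      simp
    simp only at h2
    rw [h3] at h2
    have h4 : (univ.filter fun e => x e ∈ P).card ≠ 0 := by
      rw [Finset.card_ne_zero]
      exact ⟨e₀, Finset.mem_filter.2 ⟨Finset.mem_univ _, hP1 (Finset.mem_singleton_self _)⟩⟩
    have h5 : Disjoint (univ.filter fun e => x e ∈ P) (univ.filter fun e => x e ∈ T) := by
      rw [Finset.disjoint_left]
      intro e he1 he2
      rw [Finset.mem_filter] at he1 he2
      exact (Finset.mem_compl.1 (hP2 he1.2)) he2.2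
    have h6 := Finset.card_union_of_disjoint h5
    have h7 := Finset.card_le_univ ((univ.filter fun e => x e ∈ P) ∪ (univ.filter fun e => x e ∈ T))
    rw [Fintype.card_fin] at h7
    omega
  -- the map is constant
  have hconst : ∀ e₁ e₂ : Fin n, x e₁ = x e₂ := by
    intro e₁ e₂
    by_contra hne
    by_cases hA : ∃ w, 3 ≤ (univ.filter fun e => x e = w).card
    · obtain ⟨w, hw⟩ := hA
      have h1 : ∀ e₀, x e₀ ≠ w → False := by
        intro e₀ h2
        have h3 := hfew e₀ {w} (by rw [Finset.mem_singleton]; exact h2)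
          (by rw [Finset.card_singleton]; omega)
        simp only [Finset.mem_singleton] at h3
        omega
      by_cases h2 : x e₁ = w
      · exact h1 e₂ fun h3 => hne (h2.trans h3.symm)
      · exact h1 e₁ h2
    · push Not at hA
      have h1 := Finset.card_le_mul_card_image (s := (univ : Finset (Fin n))) (f := x) 2
        (fun w _ => by have := hA w; omega)
      rw [Finset.card_univ, Fintype.card_fin] at h1
      have h2 : 3 ≤ ((univ.image x).erase (x e₁)).card := by
        rw [Finset.card_erase_of_mem (Finset.mem_image_of_mem x (Finset.mem_univ e₁))]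
        omega
      obtain ⟨T, hT1, hT2⟩ := Finset.exists_subset_card_eq h2
      have h3 := hfew e₁ T (fun h4 => by
        have := hT1 h4
        rw [Finset.mem_erase] at this
        exact this.1 rfl) hT2.le
      have h4 : T ⊆ (univ.filter fun e => x e ∈ T).image x := by
        intro w hw
        have h5 := Finset.mem_of_mem_erase (hT1 hw)
        rw [Finset.mem_image] at h5 ⊢
        obtain ⟨e, -, he⟩ := h5
        refine ⟨e, Finset.mem_filter.2 ⟨Finset.mem_univ _, ?_⟩, he⟩
        rw [he]
        exact hw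
      have h5 := (Finset.card_le_card h4).trans Finset.card_image_le
      omega
  have hpos : 0 < n := by omega
  refine ⟨x ⟨0, hpos⟩, fun A hA hA0 => ?_⟩
  set y := x ⟨0, hpos⟩ with hy
  have hempty : ∀ P : Finset (Fin n), P.card = m + 1 → y ∈ P → inn F P = ∅ := by
    intro P hP hyP
    rw [Finset.eq_empty_iff_forall_notMem]
    intro e
    refine dlt_notMem_left (inn_mem hF P) (hdj P) ?_
    rw [hmid P hP e, hconst e ⟨0, hpos⟩]
    exact hyP
  by_contra hlt
  obtain ⟨Q, hQ1, hQ2, hQ3⟩ := Finset.exists_subsuperset_card_eq (s := A.erase y)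
    (t := univ.erase y) (n := m) (Finset.erase_subset_erase _ (Finset.subset_univ _))
    (by omega) (by
      rw [Finset.card_erase_of_mem (Finset.mem_univ _), Finset.card_univ, Fintype.card_fin]
      omega)
  have hyQ : y ∉ Q := fun h1 => (Finset.mem_erase.1 (hQ2 h1)).1 rfl
  have h1 : inn F (insert y Q) = ∅ := hempty _ (by rw [Finset.card_insert_of_notMem hyQ, hQ3])
    (Finset.mem_insert_self _ _)
  have h2 : A ⊆ insert y Q := by
    intro z hz
    rw [Finset.mem_insert]
    by_cases hzy : z = y
    · exact Or.inl hzy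
    · exact Or.inr (hQ1 (Finset.mem_erase.2 ⟨hzy, hz⟩))
  have h3 := subset_inn hA h2
  rw [h1, Finset.subset_empty] at h3
  exact hA0 h3

end Pool.Agent.H52.UX
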