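import Pool.Agent.H52.UX.GoodE
import Pool.Agent.H52.UX.GoodO

/-! # UX.GoodU : the extremal good families, `t = 1`

Let `B` be the family of all `P` with the condition on the right (`x` from `good_odd`, or any `x` if `n` is even).  `B` is two-intersecting (sizes; `|P ∩ Q| ≥ |P| + |Q| - n`, resp. on the set without `x`),
so `|B| ≤ kk n` (`katona`), and no two members of `B` are disjoint.  By `good_even`, `good_odd`: `F.erase ∅ ⊆ B`.  A pair in `dpairs F` with both members nonempty would be a disjoint pair in `B`; so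
`dpairs F = {(∅,∅)} ∪ {(∅,A)} ∪ {(A,∅)}` over `A ∈ F.erase ∅`, `|dpairs F| ≤ 2 |F.erase ∅| + 1`.  Hence `kk n ≤ |F.erase ∅|` and `F.erase ∅ = B` (`Finset.eq_of_subset_of_card_le`); `∅ ∈ F` (`Good.empty`). -/

open Finset Pool.Agent.H37 Pool.Agent.H45.TA

namespace Pool.Agent.H52.UX

variable {n : ℕ} {F : Finset (Finset (Fin n))}

theorem good_unique (hn : 6 ≤ n) (hF : Good F) (h : 2 * kk n + 1 ≤ (dpairs F).card) :
    ∃ x : Fin n, ∀ P, P ∈ F ↔ P = ∅ ∨
      ((Even n ∧ n + 2 ≤ 2 * P.card) ∨ (¬ Even n ∧ n + 1 ≤ 2 * (P.erase x).card)) := by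
  classical
  obtain ⟨x, hx⟩ : ∃ x : Fin n, ∀ A ∈ F, A ≠ ∅ →
      ((Even n ∧ n + 2 ≤ 2 * A.card) ∨ (¬ Even n ∧ n + 1 ≤ 2 * (A.erase x).card)) := by
    by_cases he : Even n
    · exact ⟨⟨0, by omega⟩, fun A hA h0 => Or.inl ⟨he, good_even (by omega) he hF h A hA h0⟩⟩
    · have h7 : 7 ≤ n := by
        rcases Nat.lt_or_ge n 7 with h6 | h6
        · exact absurd (by rw [show n = 6 by omega]; decide) he
        · exact h6
      obtain ⟨x, hx⟩ := good_odd h7 he hF h
      exact ⟨x, fun A hA h0 => Or.inr ⟨he, hx A hA h0⟩⟩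
  refine ⟨x, ?_⟩
  set B : Finset (Finset (Fin n)) := univ.filter fun P : Finset (Fin n) =>
    ((Even n ∧ n + 2 ≤ 2 * P.card) ∨ (¬ Even n ∧ n + 1 ≤ 2 * (P.erase x).card)) with hB
  have memB : ∀ P, P ∈ B ↔
      ((Even n ∧ n + 2 ≤ 2 * P.card) ∨ (¬ Even n ∧ n + 1 ≤ 2 * (P.erase x).card)) := by
    intro P
    rw [hB, mem_filter]
    simp
  have hBi : ∀ P ∈ B, ∀ Q ∈ B, 2 ≤ (P ∩ Q).card := by
    intro P hP Q hQ
    rw [memB] at hP hQ
    by_cases he : Even n
    · have h1 : n + 2 ≤ 2 * P.card := by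
        rcases hP with h1 | h1
        · exact h1.2
        · exact absurd he h1.1
      have h2 : n + 2 ≤ 2 * Q.card := by
        rcases hQ with h1 | h1
        · exact h1.2
        · exact absurd he h1.1
      have h3 := card_union_add_card_inter P Q
      have h4 : (P ∪ Q).card ≤ n := (card_le_univ _).trans (by simp)
      omega
    · have h1 : n + 1 ≤ 2 * (P.erase x).card := by
        rcases hP with h1 | h1
        · exact absurd h1.1 he
        · exact h1.2
      have h2 : n + 1 ≤ 2 * (Q.erase x).card := by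
        rcases hQ with h1 | h1
        · exact absurd h1.1 he
        · exact h1.2
      have h3 := card_union_add_card_inter (P.erase x) (Q.erase x)
      have h4 : (P.erase x ∪ Q.erase x).card ≤ n - 1 := by
        have h5 : P.erase x ∪ Q.erase x ⊆ (univ : Finset (Fin n)).erase x := by
          intro y hy
          rw [mem_union, mem_erase, mem_erase] at hy
          rw [mem_erase]
          exact ⟨by tauto, mem_univ y⟩
        refine (card_le_card h5).trans ?_
        rw [card_erase_of_mem (mem_univ x), card_univ, Fintype.card_fin]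
      have h5 : (P.erase x ∩ Q.erase x).card ≤ (P ∩ Q).card :=
        card_le_card (inter_subset_inter (erase_subset _ _) (erase_subset _ _))
      omega
  have hBc : B.card ≤ kk n := katona B hBi
  have hFB : F.erase ∅ ⊆ B := by
    intro A hA
    rw [mem_erase] at hA
    exact (memB A).2 (hx A hA.2 hA.1)
  have hd : dpairs F ⊆ ({(∅, ∅)} : Finset (Finset (Fin n) × Finset (Fin n))) ∪
      ((F.erase ∅).image (fun A => ((∅ : Finset (Fin n)), A)) ∪
        (F.erase ∅).image (fun A => (A, (∅ : Finset (Fin n))))) := by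
    rintro ⟨A, C⟩ hAC
    unfold dpairs at hAC
    rw [mem_filter, mem_product] at hAC
    obtain ⟨⟨hA, hC⟩, hdis⟩ := hAC
    dsimp only at hA hC hdis
    rw [mem_union, mem_union, mem_singleton, mem_image, mem_image]
    by_cases hA0 : A = ∅
    · subst hA0
      by_cases hC0 : C = ∅
      · subst hC0
        exact Or.inl rfl
      · exact Or.inr (Or.inl ⟨C, mem_erase.2 ⟨hC0, hC⟩, rfl⟩)
    · by_cases hC0 : C = ∅
      · subst hC0
        exact Or.inr (Or.inr ⟨A, mem_erase.2 ⟨hA0, hA⟩, rfl⟩)
      · exfalso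
        have h1 := hBi A (hFB (mem_erase.2 ⟨hA0, hA⟩)) C (hFB (mem_erase.2 ⟨hC0, hC⟩))
        rw [disjoint_iff_inter_eq_empty.1 hdis, card_empty] at h1
        omega
  have hk : kk n ≤ (F.erase ∅).card := by
    have h1 := card_le_card hd
    have h2 := card_union_le ({(∅, ∅)} : Finset (Finset (Fin n) × Finset (Fin n)))
      ((F.erase ∅).image (fun A => ((∅ : Finset (Fin n)), A)) ∪
        (F.erase ∅).image (fun A => (A, (∅ : Finset (Fin n)))))
    have h3 := card_union_le ((F.erase ∅).image (fun A => ((∅ : Finset (Fin n)), A)))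
      ((F.erase ∅).image (fun A => (A, (∅ : Finset (Fin n)))))
    have h4 : ((F.erase ∅).image (fun A => ((∅ : Finset (Fin n)), A))).card ≤ (F.erase ∅).card :=
      card_image_le
    have h5 : ((F.erase ∅).image (fun A => (A, (∅ : Finset (Fin n))))).card ≤ (F.erase ∅).card :=
      card_image_le
    rw [card_singleton] at h2
    omega
  have hEq : F.erase ∅ = B := eq_of_subset_of_card_le hFB (hBc.trans hk)
  intro P
  rw [← memB P, ← hEq, mem_erase]
  constructor
  · intro hP
    by_cases h0 : P = ∅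
    · exact Or.inl h0
    · exact Or.inr ⟨h0, hP⟩
  · rintro (h0 | h0)
    · rw [h0]
      exact hF.empty
    · exact h0.2

end Pool.Agent.H52.UX
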