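import Pool.Agent.H52.UX.CoreS
import Pool.Agent.H52.UX.SmallS
import Pool.Agent.H37.AV.Params
import Pool.Agent.H37.AV.HalfA

/-! # UX.HalfE : equality in half A

`params t ht`: `w, n₁`; `small_strict t w ht`: `n₂`; `n₀ = max n₁ n₂` (as in `half_a`, H37/AV/HalfA).  If some member has size `≤ w`: `small_strict`
contradicts `h`.  Otherwise `core_slack` and `h` give `4 W(Rm) = 0`, and the weights are positive (`WK.sb_pos`), so `Rm t R = ∅`: any two members meet
in at least `t` elements (`mem_Rm`), and not in exactly `t` (`Av.av`), so `Fam (Icc 1 n) (t + 1) R`.  Then `disjPairs R = 0` (a two-element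
subfamily with disjoint members would give `|A ∩ B| = 0`), `rows_card` gives `2 W(base) ≤ rows = 2 W(R)`. -/

open Finset Pool.Agent.H37 Pool.Agent.H37.AV

namespace Pool.Agent.H52.UX

theorem half_eq (t : ℕ) (ht : 2 ≤ t) : ∃ n₀ : ℕ, ∀ n ≥ n₀, ∀ R : Finset (Finset ℕ),
    Av (Icc 1 n) t R → 2 * WK.W n t (WK.base n t) ≤ (rows (Icc 1 n) t R).card →
      WK.Fam (Icc 1 n) (t + 1) R ∧ WK.W n t (WK.base n t) ≤ WK.W n t R := by
  classical
  obtain ⟨w, n₁, h1⟩ := params t ht
  obtain ⟨n₂, h2⟩ := small_strict t w ht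
  refine ⟨max n₁ n₂, fun n hn R hR hrow => ?_⟩
  by_cases hs : ∃ C ∈ R, C.card ≤ w
  · exact absurd (h2 n (le_trans (le_max_right _ _) hn) R hR hs) (by omega)
  push Not at hs
  obtain ⟨r, m, h1', hh, M, s, c1, α, β, θ, P⟩ := h1 n (le_trans (le_max_left _ _) hn)
  have hcore := core_slack P hR (fun A hA => (hs A hA).le)
  have hW0 : WK.W n t (Rm t R) = 0 := by omega
  have hempty : ∀ A, A ∉ Rm t R := by
    intro A hA
    have h3 : WK.sb t (n - A.card) ≤ WK.W n t (Rm t R) :=
      single_le_sum (f := fun A : Finset ℕ => WK.sb t (n - A.card)) (fun _ _ => Nat.zero_le _) hA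
    have h4 := WK.sb_pos (t := t) (by omega) (n - A.card)
    omega
  have hge : ∀ A ∈ R, ∀ B ∈ R, t + 1 ≤ (A ∩ B).card := by
    intro A hA B hB
    have h3 : ¬ (A ∩ B).card < t := fun h => hempty A (mem_Rm.2 ⟨hA, B, hB, h⟩)
    have h4 := hR.av A hA B hB
    omega
  refine ⟨⟨hR.sub, hge⟩, ?_⟩
  have hd : WK.disjPairs R = 0 := by
    unfold WK.disjPairs
    rw [card_eq_zero, filter_eq_empty_iff]
    intro Pr hPr hall
    obtain ⟨hsub, hcard⟩ := mem_powersetCard.1 hPr
    obtain ⟨A, B, hAB, rfl⟩ := card_eq_two.1 hcard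
    have h3 := hall A (by simp) B (by simp) hAB
    have h4 := hge A (hsub (by simp)) B (hsub (by simp))
    rw [h3, card_empty] at h4
    omega
  have h5 := rows_card (by omega) hR
  omega

end Pool.Agent.H52.UX
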