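import Pool.Agent.H52.UX.WUniq
import Pool.Agent.H26.LT.COne

/-! # UX.KatU : uniqueness in Katona's theorem for two-intersecting families (`n ≥ 4`)

`emb : Fin n ↪ ℕ`, `i ↦ i + 1`, image `Icc 1 n`.  `U = 𝒰.map (mapEmbedding emb)` (or `𝒰.image (fun P => P.map emb)`) is `Fam (Icc 1 n) 2`; `W n 1 U = |U| = |𝒰|` (`sb 1 b = 1`) and
`W n 1 (base n 1) = |base n 1| ≤ kk n`: the family of all `P : Finset (Fin n)` with `P.map emb ∈ base n 1` is two-intersecting (any two members of `base n 1` meet in two elements: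
`n + 1` odd: sizes `≥ (n+2)/2`; `n + 1` even: the traces on `Icc 2 n` have size `≥ (n+1)/2`), so `katona` applies.  `weighted_unique` with `t = 1`, `4 ≤ n`:
`U = bV (Icc 1 n) 1 x`, `x = emb i`; `P ∈ 𝒰 ↔ P.map emb ∈ U`, `(P.map emb).erase (emb i) = (P.erase i).map emb`; `Odd (n + 1) ↔ Even n`. -/

open Finset Pool.Agent.H37 Pool.Agent.H45.TA

namespace Pool.Agent.H52.UX

private def emb (n : ℕ) : Fin n ↪ ℕ := ⟨fun i => i.val + 1, fun i j h => Fin.ext (by simpa using h)⟩

private lemma emb_mem {n : ℕ} (P : Finset (Fin n)) : P.map (emb n) ⊆ Icc 1 n := by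
  intro y hy
  rw [mem_map] at hy
  obtain ⟨i, -, rfl⟩ := hy
  have := i.isLt
  rw [mem_Icc]
  show 1 ≤ i.val + 1 ∧ i.val + 1 ≤ n
  omega

private lemma exists_pre {n : ℕ} {A : Finset ℕ} (hA : A ⊆ Icc 1 n) :
    ∃ P : Finset (Fin n), P.map (emb n) = A := by
  refine ⟨univ.filter fun i => emb n i ∈ A, ?_⟩
  ext y
  rw [mem_map]
  constructor
  · rintro ⟨i, hi, rfl⟩
    exact (mem_filter.1 hi).2
  · intro hy
    have h1 := mem_Icc.1 (hA hy)
    have h2 : y - 1 < n := by omega
    have h3 : emb n ⟨y - 1, h2⟩ = y := by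
      show y - 1 + 1 = y
      omega
    exact ⟨⟨y - 1, h2⟩, mem_filter.2 ⟨mem_univ _, by rw [h3]; exact hy⟩, h3⟩

private lemma two_inter {V A B : Finset ℕ} (hA : A ⊆ V) (hB : B ⊆ V)
    (h : V.card + 2 ≤ A.card + B.card) : 2 ≤ (A ∩ B).card := by
  have h1 := card_union_add_card_inter A B
  have h2 := card_le_card (union_subset hA hB)
  omega

private lemma base_two {n : ℕ} {A B : Finset ℕ} (hA : A ∈ WK.base n 1) (hB : B ∈ WK.base n 1) :
    2 ≤ (A ∩ B).card := by
  have hc : (Icc 1 n).card = n := by simp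
  unfold WK.base at hA hB
  split_ifs at hA hB with h
  · rw [mem_filter, mem_powerset] at hA hB
    refine two_inter hA.1 hB.1 ?_
    rw [hc]
    omega
  · rw [mem_filter, mem_powerset] at hA hB
    have h1 : 1 ≤ n := by
      by_contra h0
      have h00 : n = 0 := by omega
      subst h00
      simp at h
    have h2 : (Icc 1 n \ {1}).card = n - 1 := by
      rw [card_sdiff_of_subset (by simpa using h1), hc, card_singleton]
    have h3 : 2 ≤ ((A ∩ (Icc 1 n \ {1})) ∩ (B ∩ (Icc 1 n \ {1}))).card := by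
      refine two_inter inter_subset_right inter_subset_right ?_
      rw [h2]
      omega
    refine h3.trans (card_le_card ?_)
    exact inter_subset_inter inter_subset_left inter_subset_left

private lemma W_one (n : ℕ) (F : Finset (Finset ℕ)) : WK.W n 1 F = F.card := by
  unfold WK.W WK.sb
  simp

private lemma base_card (n : ℕ) : (WK.base n 1).card ≤ kk n := by
  classical
  set 𝒲 : Finset (Finset (Fin n)) := univ.filter fun P => P.map (emb n) ∈ WK.base n 1 with h𝒲
  have h1 : WK.base n 1 ⊆ 𝒲.image fun P => P.map (emb n) := by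
    intro A hA
    have hA' : A ⊆ Icc 1 n := by
      have h2 := hA
      rw [← bV_base, mem_bV] at h2
      exact h2.1
    obtain ⟨P, hP⟩ := exists_pre hA'
    rw [mem_image]
    refine ⟨P, ?_, hP⟩
    rw [h𝒲, mem_filter]
    exact ⟨mem_univ _, by rw [hP]; exact hA⟩
  refine (card_le_card h1).trans (card_image_le.trans (katona 𝒲 fun P hP Q hQ => ?_))
  rw [h𝒲, mem_filter] at hP hQ
  have h2 := base_two hP.2 hQ.2
  rw [← map_inter, card_map] at h2
  exact h2

theorem katona_unique {n : ℕ} (hn : 4 ≤ n) (𝒰 : Finset (Finset (Fin n)))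
    (hi : ∀ P ∈ 𝒰, ∀ Q ∈ 𝒰, 2 ≤ (P ∩ Q).card) (hc : kk n ≤ 𝒰.card) :
    ∃ x : Fin n, ∀ P, P ∈ 𝒰 ↔
      ((Even n ∧ n + 2 ≤ 2 * P.card) ∨ (¬ Even n ∧ n + 1 ≤ 2 * (P.erase x).card)) := by
  classical
  set U : Finset (Finset ℕ) := 𝒰.image fun P => P.map (emb n) with hU
  have hinj : Function.Injective fun P : Finset (Fin n) => P.map (emb n) := map_injective (emb n)
  have hUc : U.card = 𝒰.card := card_image_of_injective _ hinj
  have hF : WK.Fam (Icc 1 n) (1 + 1) U := by
    constructor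
    · intro A hA
      rw [hU, mem_image] at hA
      obtain ⟨P, -, rfl⟩ := hA
      exact emb_mem P
    · intro A hA B hB
      rw [hU, mem_image] at hA hB
      obtain ⟨P, hP, rfl⟩ := hA
      obtain ⟨Q, hQ, rfl⟩ := hB
      rw [← map_inter, card_map]
      exact hi P hP Q hQ
  have hW : WK.W n 1 (WK.base n 1) ≤ WK.W n 1 U := by
    rw [W_one, W_one, hUc]
    exact (base_card n).trans hc
  obtain ⟨x, hx, hUx⟩ := weighted_unique le_rfl (by omega) hF hW
  rw [mem_Icc] at hx
  have hxn : x - 1 < n := by omega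
  have hex : emb n ⟨x - 1, hxn⟩ = x := by
    show x - 1 + 1 = x
    omega
  refine ⟨⟨x - 1, hxn⟩, fun P => ?_⟩
  have h1 : P ∈ 𝒰 ↔ P.map (emb n) ∈ U := by
    rw [hU, mem_image]
    constructor
    · intro h
      exact ⟨P, h, rfl⟩
    · rintro ⟨Q, hQ, hQP⟩
      have := hinj hQP
      rwa [← this]
  have h2 : (P.map (emb n)).erase x = (P.erase ⟨x - 1, hxn⟩).map (emb n) := by
    rw [map_erase, hex]
  have h3 : (Icc 1 n).card = n := by simp
  rw [h1, hUx, mem_bV, h2, card_map, card_map, h3]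
  have h4 : Odd (n + 1) ↔ Even n := by
    rw [Nat.odd_add_one, Nat.not_odd_iff_even]
  rw [h4]
  exact ⟨fun h => h.2, fun h => ⟨emb_mem P, h⟩⟩

end Pool.Agent.H52.UX
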