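import Pool.Agent.H52.UX.Defs
import Pool.Agent.H26.LT.Main

/-! # UX.Lit : a member of size `t` makes the inequality strict, `t ≥ 2`

Copy of the first case of `literal_bound` (H26/LT/Main, with its private lemmas); there `2 disjPairs F ≤ 2 W(base)`, and `disjPairs (small n t) + W(base) ≤ disjPairs (starFamily n t)` (`WK.pairs_ge`)
with `1 ≤ disjPairs (small n t)` (the pair `{∅, {1}}`, `t ≥ 2`, `n ≥ 1`).  `omega` at the end. -/

open Finset Pool.Agent.H37 Pool.Agent.H37.AV
open Pool.Agent.H26.LT (dp Hv)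

namespace Pool.Agent.H52.UX

private lemma lit_mem_disj {F P : Finset (Finset ℕ)} :
    P ∈ (F.powersetCard 2).filter (fun P => ∀ A ∈ P, ∀ B ∈ P, A ≠ B → A ∩ B = ∅) ↔
      ∃ A ∈ F, ∃ B ∈ F, A ≠ B ∧ A ∩ B = ∅ ∧ P = {A, B} := by
  rw [Finset.mem_filter, Finset.mem_powersetCard]
  constructor
  · rintro ⟨⟨h1, h2⟩, h3⟩
    obtain ⟨A, B, hAB, rfl⟩ := Finset.card_eq_two.1 h2
    exact ⟨A, h1 (by simp), B, h1 (by simp), hAB, h3 A (by simp) B (by simp) hAB, rfl⟩
  · rintro ⟨A, hA, B, hB, hAB, hd, rfl⟩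
    refine ⟨⟨?_, Finset.card_pair hAB⟩, ?_⟩
    · intro D hD
      rcases Finset.mem_insert.1 hD with rfl | hD
      · exact hA
      · rw [Finset.mem_singleton.1 hD]; exact hB
    · intro C hC D hD hCD
      rcases Finset.mem_insert.1 hC with h1 | h1 <;> rcases Finset.mem_insert.1 hD with h2 | h2
      · exact absurd (h1.trans h2.symm) hCD
      · rw [Finset.mem_singleton.1 h2, h1]; exact hd
      · rw [Finset.mem_singleton.1 h1, h2, Finset.inter_comm]; exact hd
      · exact absurd ((Finset.mem_singleton.1 h1).trans (Finset.mem_singleton.1 h2).symm) hCD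

/-- The number of subsets of `[n]` of size at most `t`. -/
private lemma lit_card_small (n t : ℕ) :
    ((Icc 1 n).powerset.filter (fun A : Finset ℕ => A.card ≤ t)).card ≤ (n + 1) ^ t := by
  induction t with
  | zero =>
    rw [pow_zero, card_le_one]
    intro A hA B hB
    have h1 := (mem_filter.1 hA).2
    have h2 := (mem_filter.1 hB).2
    rw [Nat.le_zero, card_eq_zero] at h1 h2
    rw [h1, h2]
  | succ t ih =>
    have hsub : (Icc 1 n).powerset.filter (fun A : Finset ℕ => A.card ≤ t + 1) ⊆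
        (((Icc 1 n).powerset.filter (fun A : Finset ℕ => A.card ≤ t)) ×ˢ range (n + 1)).image
          (fun p : Finset ℕ × ℕ => if p.2 = 0 then p.1 else insert p.2 p.1) := by
      intro A hA
      rw [mem_filter, mem_powerset] at hA
      rw [mem_image]
      by_cases hc : A.card ≤ t
      · refine ⟨(A, 0), ?_, by simp⟩
        rw [mem_product, mem_filter, mem_powerset]
        exact ⟨⟨hA.1, hc⟩, mem_range.2 (Nat.succ_pos n)⟩
      · have hne : A.Nonempty := by
          rw [← card_pos]
          omega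
        obtain ⟨x, hx⟩ := hne
        have hx1 := mem_Icc.1 (hA.1 hx)
        refine ⟨(A.erase x, x), ?_, ?_⟩
        · rw [mem_product, mem_filter, mem_powerset]
          refine ⟨⟨(erase_subset _ _).trans hA.1, ?_⟩, mem_range.2 (by omega)⟩
          rw [card_erase_of_mem hx]
          omega
        · have hx0 : x ≠ 0 := by omega
          simp only [hx0, if_false]
          exact insert_erase hx
    calc _ ≤ _ := card_le_card hsub
      _ ≤ _ := card_image_le
      _ = _ := card_product _ _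
      _ ≤ (n + 1) ^ t * (n + 1) := by
          rw [card_range]
          exact Nat.mul_le_mul_right _ ih
      _ = (n + 1) ^ (t + 1) := (pow_succ _ _).symm

private lemma lit_disj_le (G : Finset (Finset ℕ)) : WK.disjPairs G ≤ G.card ^ 2 := by
  unfold WK.disjPairs
  refine (card_filter_le _ _).trans ?_
  rw [card_powersetCard]
  exact Nat.choose_le_pow _ _

private lemma lit_pairs_le {n t : ℕ} {F R H : Finset (Finset ℕ)} (hV : ∀ A ∈ F, A ⊆ Icc 1 n)
    (hR : R = F.filter (fun A => t < A.card)) (hH : H = F.filter (fun A => A.card = t))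
    (hAv : Av (Icc 1 n) t R) :
    WK.disjPairs F ≤ WK.disjPairs (F.filter (fun A => A.card ≤ t)) + WK.W n t R + dp H R +
      WK.disjPairs R := by
  have hn : (Icc 1 n).card = n := by simp
  have hW := small_rows_card hAv (Subset.refl R)
  rw [hn] at hW
  rw [← hW]
  set T1 := (rows (Icc 1 n) t R).filter (fun r => r.1 ∈ R ∧ r.2.card < t) with hT1
  set T2 := (H ×ˢ R).filter (fun p => Disjoint p.1 p.2) with hT2
  have hdp : dp H R = T2.card := rfl
  rw [hdp]
  have hsub : (F.powersetCard 2).filter (fun P => ∀ A ∈ P, ∀ B ∈ P, A ≠ B → A ∩ B = ∅) ⊆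
      ((((F.filter (fun A => A.card ≤ t)).powersetCard 2).filter
          (fun P => ∀ A ∈ P, ∀ B ∈ P, A ≠ B → A ∩ B = ∅) ∪
        T1.image (fun p => ({p.1, p.2} : Finset (Finset ℕ)))) ∪
        T2.image (fun p => ({p.1, p.2} : Finset (Finset ℕ)))) ∪
      (R.powersetCard 2).filter (fun P => ∀ A ∈ P, ∀ B ∈ P, A ≠ B → A ∩ B = ∅) := by
    intro P hP
    obtain ⟨A, hA, B, hB, hAB, hd, rfl⟩ := lit_mem_disj.1 hP
    have hmix : ∀ A ∈ F, ∀ B ∈ F, t < A.card → B.card ≤ t → A ∩ B = ∅ →
        ({A, B} : Finset (Finset ℕ)) ∈ T1.image (fun p => ({p.1, p.2} : Finset (Finset ℕ))) ∨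
        ({A, B} : Finset (Finset ℕ)) ∈ T2.image (fun p => ({p.1, p.2} : Finset (Finset ℕ))) := by
      intro A hA B hB hAt hBt hd
      have hAR : A ∈ R := by
        rw [hR]
        exact mem_filter.2 ⟨hA, hAt⟩
      have hdis : Disjoint A B := disjoint_iff_inter_eq_empty.2 hd
      rcases lt_or_eq_of_le hBt with h | h
      · left
        rw [mem_image]
        refine ⟨(A, B), ?_, rfl⟩
        rw [hT1, mem_filter, mem_rows]
        exact ⟨⟨hV A hA, hV B hB, hdis, Or.inl hAR, Or.inr h, Or.inl hAR⟩, hAR, h⟩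
      · right
        rw [mem_image]
        refine ⟨(B, A), ?_, pair_comm _ _⟩
        rw [hT2, mem_filter, mem_product]
        refine ⟨⟨?_, hAR⟩, hdis.symm⟩
        rw [hH]
        exact mem_filter.2 ⟨hB, h⟩
    rcases Nat.lt_or_ge t A.card with h1 | h1 <;> rcases Nat.lt_or_ge t B.card with h2 | h2
    · refine mem_union_right _ (lit_mem_disj.2 ⟨A, ?_, B, ?_, hAB, hd, rfl⟩)
      · rw [hR]
        exact mem_filter.2 ⟨hA, h1⟩
      · rw [hR]
        exact mem_filter.2 ⟨hB, h2⟩
    · rcases hmix A hA B hB h1 h2 hd with h | h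
      · exact mem_union_left _ (mem_union_left _ (mem_union_right _ h))
      · exact mem_union_left _ (mem_union_right _ h)
    · rw [pair_comm]
      rcases hmix B hB A hA h2 h1 (by rw [inter_comm]; exact hd) with h | h
      · exact mem_union_left _ (mem_union_left _ (mem_union_right _ h))
      · exact mem_union_left _ (mem_union_right _ h)
    · refine mem_union_left _ (mem_union_left _ (mem_union_left _
        (lit_mem_disj.2 ⟨A, mem_filter.2 ⟨hA, h1⟩, B, mem_filter.2 ⟨hB, h2⟩, hAB, hd, rfl⟩)))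
  unfold WK.disjPairs
  refine (card_le_card hsub).trans ?_
  refine (card_union_le _ _).trans (Nat.add_le_add_right ?_ _)
  refine (card_union_le _ _).trans (Nat.add_le_add ?_ card_image_le)
  exact (card_union_le _ _).trans (Nat.add_le_add_left card_image_le _)

/-- the pair `{∅, {1}}` -/
private lemma lit_small {n t : ℕ} (ht : 2 ≤ t) (hn : 1 ≤ n) : 1 ≤ WK.disjPairs (WK.small n t) := by
  have hmem : ({∅, {1}} : Finset (Finset ℕ)) ∈ ((WK.small n t).powersetCard 2).filter
      (fun P => ∀ A ∈ P, ∀ B ∈ P, A ≠ B → A ∩ B = ∅) := by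
    refine lit_mem_disj.2 ⟨∅, ?_, {1}, ?_, ?_, ?_, rfl⟩
    · unfold WK.small
      rw [mem_filter, mem_powerset]
      exact ⟨empty_subset _, by rw [card_empty]; omega⟩
    · unfold WK.small
      rw [mem_filter, mem_powerset, card_singleton]
      exact ⟨singleton_subset_iff.2 (mem_Icc.2 ⟨le_refl _, hn⟩), by omega⟩
    · exact (singleton_ne_empty 1).symm
    · exact empty_inter _
  unfold WK.disjPairs
  exact card_pos.2 ⟨_, hmem⟩

theorem lit_strict (t : ℕ) (ht : 2 ≤ t) : ∃ n₀ : ℕ, ∀ n ≥ n₀, ∀ F : Finset (Finset ℕ),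
    (∀ A ∈ F, A ⊆ Icc 1 n) → (∀ A ∈ F, ∀ B ∈ F, A ≠ B → (A ∩ B).card ≠ t) →
      (∃ A ∈ F, A.card = t) → WK.disjPairs F < WK.disjPairs (WK.starFamily n t) := by
  classical
  obtain ⟨n₂, h2⟩ := Pool.Agent.H26.LT.key t ht
  refine ⟨max n₂ (t + 1), fun n hn F hV hF hex => ?_⟩
  have hn2 : n₂ ≤ n := (le_max_left _ _).trans hn
  have htn : t + 1 ≤ n := (le_max_right _ _).trans hn
  obtain ⟨A₀, hA₀, hA₀t⟩ := hex
  have hH : (F.filter (fun A => A.card = t)).Nonempty := ⟨A₀, mem_filter.2 ⟨hA₀, hA₀t⟩⟩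
  have hAv : Av (Icc 1 n) t (F.filter (fun A => t < A.card)) := by
    constructor
    · intro A hA
      exact hV A (mem_filter.1 hA).1
    · intro A hA
      exact (mem_filter.1 hA).2
    · intro A hA B hB
      by_cases hAB : A = B
      · rw [hAB, inter_self]
        have := (mem_filter.1 hB).2
        omega
      · exact hF A (mem_filter.1 hA).1 B (mem_filter.1 hB).1 hAB
  have hHv : Hv (Icc 1 n) t (F.filter (fun A => t < A.card)) (F.filter (fun A => A.card = t)) := by
    constructor
    · intro M hM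
      exact hV M (mem_filter.1 hM).1
    · intro M hM
      exact (mem_filter.1 hM).2
    · intro M hM A hA hMA
      obtain ⟨hM1, hM2⟩ := mem_filter.1 hM
      obtain ⟨hA1, hA2⟩ := mem_filter.1 hA
      have hne : M ≠ A := by
        rintro rfl
        omega
      have := hF M hM1 A hA1 hne
      rw [inter_eq_left.2 hMA] at this
      exact this hM2
  have h3 := h2 n hn2 _ _ hAv hHv hH
  have h4 := rows_card (by omega) hAv
  have h5 := WK.pairs_ge (n := n) (t := t) htn
  have h6 := lit_pairs_le hV rfl rfl hAv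
  have h7 : WK.disjPairs (F.filter (fun A => A.card ≤ t)) ≤ (n + 1) ^ (2 * t) := by
    refine (lit_disj_le _).trans ?_
    have h8 : (F.filter (fun A => A.card ≤ t)).card ≤ (n + 1) ^ t := by
      refine (card_le_card ?_).trans (lit_card_small n t)
      intro A hA
      obtain ⟨hA1, hA2⟩ := mem_filter.1 hA
      exact mem_filter.2 ⟨mem_powerset.2 (hV A hA1), hA2⟩
    calc _ ≤ ((n + 1) ^ t) ^ 2 := Nat.pow_le_pow_left h8 2
      _ = (n + 1) ^ (2 * t) := by rw [← pow_mul, mul_comm t 2]
  have h9 := lit_small (n := n) ht (by omega)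
  omega

end Pool.Agent.H52.UX
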