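import Pool.Agent.H26.LT.COne

/-! # UX.NumS : strict numerical inequality, `t = 1`

Copy of `numeric` (H26/LT/COne) with strict inequalities.  `s = 1`, `n = 2m + 2` even, `m ≥ 2`: `kk n - 2 kk (n-1) = C(2m,m) - C(2m,m-1) ≥ 2` (proof of `kk_even` in H45/TA/Transfer;
`C(2m,m) m = C(2m,m-1)(m+1)`, so the difference is `C(2m,m-1)/m ≥ 2` for `m ≥ 2`), hence `4 kk (n-1) + 2 < 2 kk n`.  `s ≥ 2`: `kk_pow`: `2^s kk (n-s) ≤ kk n`.  `n - s < 2`: `kk (n-s) = 0` and `s(s+1) ≤ n(n+1) < 2 kk n`
(`kk_quad` strict: base `42 < 44`).  `s = 2`: `kk 4 = 5 ≤ kk (n-2) = k`: `6k + 6 < 8k`; `s = 3`: `2 ≤ k`: `8k + 12 < 16k`; `s = 4`: `1 ≤ k`: `10k + 20 < 32k`; `s ≥ 5`: `(s+1)(s+2) < 2·2^s`. -/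

open Finset Pool.Agent.H45.TA Pool.Agent.H26.LT.COne

namespace Pool.Agent.H52.UX

private lemma le_choose_self (n : ℕ) : ∀ k : ℕ, 1 ≤ k → k + 1 ≤ n → n ≤ n.choose k := by
  induction n with
  | zero => intro k _ h; omega
  | succ n ih =>
    intro k h1 h2
    obtain ⟨l, rfl⟩ : ∃ l, k = l + 1 := ⟨k - 1, by omega⟩
    rcases Nat.lt_or_ge (l + 1) n with h3 | h3
    · have h4 := ih (l + 1) (by omega) (by omega)
      have h5 : 0 < n.choose l := Nat.choose_pos (by omega)
      rw [Nat.choose_succ_succ']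
      omega
    · have h4 : l + 1 = n := by omega
      rw [h4, Nat.choose_succ_self_right]

private lemma kk_even_two {m : ℕ} (hm2 : 2 ≤ m) : 2 * kk (2 * m + 1) + 2 ≤ kk (2 * m + 2) := by
  have h1 : kk (2 * m + 2) = ∑ j ∈ range (m + 1), (2 * m + 2).choose j := by
    unfold kk
    rw [if_pos (by rw [show 2 * m + 2 = 2 * (m + 1) by ring]; simp)]
    congr 2
    omega
  have h2 : kk (2 * m + 1) = 2 * ∑ j ∈ range m, (2 * m).choose j := by
    unfold kk
    rw [if_neg (by simp)]
    congr 3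
    omega
  rw [h1, h2]
  have h3 : ∑ j ∈ range (m + 1), (2 * m + 2).choose j
      = ∑ j ∈ range m, (2 * m + 1).choose j + ∑ j ∈ range (m + 1), (2 * m + 1).choose j := by
    rw [Finset.sum_range_succ' (fun j => (2 * m + 2).choose j)]
    simp only [Nat.choose_succ_succ, Nat.choose_zero_right, Nat.succ_eq_add_one]
    rw [Finset.sum_range_succ' (fun j => (2 * m + 1).choose j), Finset.sum_add_distrib]
    simp only [Nat.choose_succ_succ, Nat.choose_zero_right, Nat.succ_eq_add_one]
    ring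
  rw [h3, Finset.sum_range_succ (fun j => (2 * m + 1).choose j) m]
  have h4 := choose_sum_id m (by omega)
  have h5 : (2 * m + 1).choose m = (2 * m).choose (m - 1) + (2 * m).choose m := by
    obtain ⟨l, rfl⟩ : ∃ l, m = l + 1 := ⟨m - 1, by omega⟩
    rw [Nat.choose_succ_succ]
    simp
  have h6 : (2 * m).choose (m - 1) + 2 ≤ (2 * m).choose m := by
    obtain ⟨l, rfl⟩ : ∃ l, m = l + 1 := ⟨m - 1, by omega⟩
    simp only [Nat.add_sub_cancel]
    have h8 := Nat.choose_succ_right_eq (2 * (l + 1)) l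
    have h9 : 2 * (l + 1) - l = l + 2 := by omega
    rw [h9] at h8
    have h10 : 2 * (l + 1) ≤ (2 * (l + 1)).choose l := le_choose_self _ _ (by omega) (by omega)
    have h11 : ((2 * (l + 1)).choose l + 2) * (l + 1) ≤ (2 * (l + 1)).choose (l + 1) * (l + 1) := by
      rw [h8]
      have e1 : ((2 * (l + 1)).choose l + 2) * (l + 1) = (2 * (l + 1)).choose l * (l + 1)
        + 2 * (l + 1) := by ring
      have e2 : (2 * (l + 1)).choose l * (l + 2) = (2 * (l + 1)).choose l * (l + 1)
        + (2 * (l + 1)).choose l := by ring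
      rw [e1, e2]
      omega
    exact Nat.le_of_mul_le_mul_right h11 (by omega)
  omega

private lemma kk_quad_lt {n : ℕ} (hn : 6 ≤ n) : n * (n + 1) < 2 * kk n := by
  induction n, hn using Nat.le_induction with
  | base => rw [kk_six]; norm_num
  | succ n hn ih =>
    have := kk_double n
    nlinarith

private lemma two_pow_quad_lt {s : ℕ} (hs : 5 ≤ s) : (s + 1) * (s + 2) < 2 * 2 ^ s := by
  induction s, hs using Nat.le_induction with
  | base => norm_num
  | succ s hs ih =>
    rw [pow_succ]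
    nlinarith

theorem num_strict {n s : ℕ} (hn : 6 ≤ n) (hs : s ≤ n) (h : 2 ≤ s ∨ (s = 1 ∧ Even n)) :
    2 * (s + 1) * kk (n - s) + s * (s + 1) < 2 * kk n := by
  rcases h with h2 | ⟨hs1, he⟩
  · have hpow := kk_pow (n - s) s
    rw [Nat.sub_add_cancel hs] at hpow
    rcases Nat.lt_or_ge (n - s) 2 with h5 | h5
    · have hz : kk (n - s) = 0 := by
        have : n - s = 0 ∨ n - s = 1 := by omega
        rcases this with h | h <;> rw [h] <;> decide
      rw [hz]
      have h6 := kk_quad_lt hn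
      have h7 : s * (s + 1) ≤ n * (n + 1) := Nat.mul_le_mul hs (by omega)
      omega
    · have hpos : 1 ≤ kk (n - s) := by
        have := kk_mono h5
        rw [kk_two] at this
        exact this
      have hs' : s = 2 ∨ s = 3 ∨ s = 4 ∨ 5 ≤ s := by omega
      rcases hs' with rfl | rfl | rfl | h6
      · have h7 : kk 4 ≤ kk (n - 2) := kk_mono (by omega)
        rw [kk_four] at h7
        norm_num at hpow ⊢
        omega
      · have h7 : kk 3 ≤ kk (n - 3) := kk_mono (by omega)
        rw [kk_three] at h7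
        norm_num at hpow ⊢
        omega
      · norm_num at hpow ⊢
        omega
      · have h8 := two_pow_quad_lt h6
        have h9 : (s + 1) * (s + 2) * kk (n - s) < 2 * 2 ^ s * kk (n - s) :=
          Nat.mul_lt_mul_of_pos_right h8 hpos
        have h10 : s * (s + 1) * 1 ≤ s * (s + 1) * kk (n - s) := Nat.mul_le_mul_left _ hpos
        have h11 : 2 * (s + 1) * kk (n - s) + s * (s + 1) * kk (n - s)
            = (s + 1) * (s + 2) * kk (n - s) := by ring
        have h12 : 2 * 2 ^ s * kk (n - s) = 2 * (2 ^ s * kk (n - s)) := by ring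
        omega
  · subst hs1
    obtain ⟨m, rfl⟩ : ∃ m, n = 2 * m + 2 := by
      obtain ⟨m, rfl⟩ := he.two_dvd
      exact ⟨m - 1, by omega⟩
    have h3 := kk_even_two (m := m) (by omega)
    have h4 : 2 * m + 2 - 1 = 2 * m + 1 := by omega
    rw [h4]
    omega

end Pool.Agent.H52.UX
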