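import Pool.Agent.H52.UX.OneS
import Pool.Agent.H52.UX.NumS
import Pool.Agent.H52.UX.Cov

/-! # UX.OneE : the extremal families for `t = 1`, distinct members, `n` even

`s = |Xs n F|`, `k = kk (n - s)`; `strong_bound`, `strong_card` (H26/LT/COne) for `Fs F` on `Icc 1 n \ Xs n F` (`cov_sub`, `cov_strong`, `cov_card`): `|opairs (Fs F)| ≤ 2k + 1`, `|Fs F| ≤ k + 1`.
`s = 0`: `Fs F = F` (a member of size `1` is `{x}`, `x ∈ Xs n F`), strongly avoiding: `one_strong` with `V = Icc 1 n`.  `s ≥ 1`: `cov` gives `2 disjPairs F ≤ 2(s+1)k + s(s+1) + 1`, and `num_strict` gives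
`2(s+1)k + s(s+1) ≤ 2 kk n - 2` (both sides are even, `Nat.even_mul_succ_self`), a contradiction. -/

open Finset Pool.Agent.H37 Pool.Agent.H45.TA Pool.Agent.H26.LT.COne

namespace Pool.Agent.H52.UX

theorem lit_even {n : ℕ} (hn : 6 ≤ n) (he : Even n) (F : Finset (Finset ℕ))
    (hV : ∀ A ∈ F, A ⊆ Icc 1 n) (hF : IsAvoiding 1 F) (h : kk n ≤ disjPairs F) :
    ∃ x ∈ Icc 1 n, F = insert ∅ (bV (Icc 1 n) 1 x) := by
  obtain ⟨hs, hVc⟩ := cov_card n F
  rcases Nat.eq_zero_or_pos (Xs n F).card with h0 | h0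
  · -- no singletons
    have hX : Xs n F = ∅ := Finset.card_eq_zero.1 h0
    have hst : IsStronglyAvoiding 1 F := by
      intro A hA B hB
      by_cases hAB : A = B
      · subst hAB
        rw [Finset.inter_self]
        intro hc
        obtain ⟨x, rfl⟩ := Finset.card_eq_one.1 hc
        have hx : x ∈ Xs n F := by
          unfold Xs
          rw [Finset.mem_filter]
          exact ⟨hV _ hA (Finset.mem_singleton_self x), hA⟩
        rw [hX] at hx
        exact Finset.notMem_empty x hx
      · exact hF A hA B hB hAB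
    have hc : (Icc 1 n).card = n := by rw [Nat.card_Icc, Nat.add_sub_cancel]
    exact one_strong (Icc 1 n) F (by rw [hc]; exact hn) hV hst (by rw [hc]; exact h)
  · exfalso
    have hb1 := strong_bound _ (Fs F) (cov_sub hV hF) (cov_strong hF)
    have hb2 := strong_card _ (Fs F) (cov_sub hV hF) (cov_strong hF)
    rw [hVc] at hb1 hb2
    have hcov := cov hV hF
    have hcase : 2 ≤ (Xs n F).card ∨ ((Xs n F).card = 1 ∧ Even n) := by
      rcases Nat.lt_or_ge (Xs n F).card 2 with h2 | h2
      · exact Or.inr ⟨by omega, he⟩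
      · exact Or.inl h2
    have hnum := num_strict hn hs hcase
    obtain ⟨r, hr⟩ := Nat.even_mul_succ_self (Xs n F).card
    generalize (Xs n F).card = s at *
    generalize kk (n - s) = k at *
    have hsF : s * (Fs F).card ≤ s * (k + 1) := Nat.mul_le_mul_left s hb2
    have e1 : s * (k + 1) = s * k + s := by ring
    have e2 : s * (s + 1) = s * s + s := by ring
    have e3 : 2 * (s + 1) * k = 2 * (s * k) + 2 * k := by ring
    rw [e3] at hnum
    omega

end Pool.Agent.H52.UX
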