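import Pool.Agent.H52.UX.OneS
import Pool.Agent.H52.UX.NumS
import Pool.Agent.H52.UX.Cov

/-! # UX.OneO : the extremal families for `t = 1`, distinct members, `n` odd

`s = |Xs n F|`, `k = kk (n - s)`; `strong_bound`, `strong_card` (H26/LT/COne) for `Fs F` on `Icc 1 n \ Xs n F` (`cov_sub`, `cov_strong`, `cov_card`): `|opairs (Fs F)| ≤ 2k + 1`, `|Fs F| ≤ k + 1`.
`s = 0`: `Fs F = F` (a member of size `1` is `{x}`, `x ∈ Xs n F`), `strong_disjPairs`: `disjPairs F ≤ kk n`, a contradiction.  `s ≥ 2`: `cov` gives `2 disjPairs F ≤ 2(s+1)k + s(s+1) + 1 < 2 kk n + 1` (`num_strict`), a contradiction.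
`s = 1`, `Xs n F = {x}`: `Icc 1 n \ {x} = (Icc 1 n).erase x =: V`, `|V| = n - 1 ≥ 6` even, `kk n = 2k` (`kk_odd`, H45/TA/Transfer).  `cov`: `4k + 2 + [∅ ∈ F] + 1 ≤ |opairs (Fs F)| + 2 (k + 1) + 1`; `two_mul_disjPairs` for `Fs F`
(`∅ ∈ Fs F ↔ ∅ ∈ F`): `2k ≤ 2 disjPairs (Fs F)`.  `one_strong`: `Fs F = insert ∅ (bV V 1 y)`, and `bV V 1 y = bV V 1 x` since `|V| + 1` is odd.  `F = insert {x} (Fs F)` (a member of size `1` is `{z}` with `z ∈ Xs n F`). -/

open Finset Pool.Agent.H37 Pool.Agent.H45.TA Pool.Agent.H26.LT.COne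

namespace Pool.Agent.H52.UX

theorem lit_odd {n : ℕ} (hn : 7 ≤ n) (ho : Odd n) (F : Finset (Finset ℕ))
    (hV : ∀ A ∈ F, A ⊆ Icc 1 n) (hF : IsAvoiding 1 F) (h : kk n + 1 ≤ disjPairs F) :
    ∃ x ∈ Icc 1 n, F = insert ∅ (insert {x} (bV ((Icc 1 n).erase x) 1 x)) := by
  obtain ⟨hs, hVc⟩ := cov_card n F
  have hmX : ∀ A ∈ F, A.card = 1 → ∃ x ∈ Xs n F, A = {x} := by
    intro A hA hc
    obtain ⟨x, rfl⟩ := Finset.card_eq_one.1 hc
    refine ⟨x, ?_, rfl⟩
    unfold Xs
    rw [Finset.mem_filter]
    exact ⟨hV _ hA (Finset.mem_singleton_self x), hA⟩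
  rcases Nat.eq_zero_or_pos (Xs n F).card with h0 | h0
  · -- no singletons
    exfalso
    have hX : Xs n F = ∅ := Finset.card_eq_zero.1 h0
    have hst : IsStronglyAvoiding 1 F := by
      intro A hA B hB
      by_cases hAB : A = B
      · subst hAB
        rw [Finset.inter_self]
        intro hc
        obtain ⟨x, hx, -⟩ := hmX A hA hc
        rw [hX] at hx
        exact Finset.notMem_empty x hx
      · exact hF A hA B hB hAB
    have hc : (Icc 1 n).card = n := by rw [Nat.card_Icc, Nat.add_sub_cancel]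
    have h1 := strong_disjPairs (Icc 1 n) F hV hst
    rw [hc] at h1
    omega
  · have hb1 := strong_bound _ (Fs F) (cov_sub hV hF) (cov_strong hF)
    have hb2 := strong_card _ (Fs F) (cov_sub hV hF) (cov_strong hF)
    rw [hVc] at hb1 hb2
    have hcov := cov hV hF
    rcases Nat.lt_or_ge (Xs n F).card 2 with h2 | h2
    · -- one singleton
      have h1 : (Xs n F).card = 1 := by omega
      obtain ⟨x, hx⟩ := Finset.card_eq_one.1 h1
      have hxX : x ∈ Xs n F := by rw [hx]; exact Finset.mem_singleton_self x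
      have hx' := hxX
      unfold Xs at hx'
      rw [Finset.mem_filter] at hx'
      obtain ⟨hxn, hxF⟩ := hx'
      have hVe : Icc 1 n \ Xs n F = (Icc 1 n).erase x := by
        rw [hx, Finset.sdiff_singleton_eq_erase]
      have hc : ((Icc 1 n).erase x).card = n - 1 := by
        rw [Finset.card_erase_of_mem hxn, Nat.card_Icc, Nat.add_sub_cancel]
      obtain ⟨m, hm⟩ := ho
      have hkk : kk n = 2 * kk (n - 1) := by
        rw [hm, Nat.add_sub_cancel]
        exact kk_odd m
      rw [h1] at hb1 hb2 hcov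
      have hemp : ∅ ∈ Fs F ↔ ∅ ∈ F := by
        unfold Fs
        rw [Finset.mem_filter]
        simp
      have htwo := two_mul_disjPairs (Fs F)
      have hd : kk ((Icc 1 n).erase x).card ≤ disjPairs (Fs F) := by
        rw [hc]
        by_cases he : ∅ ∈ F
        · rw [if_pos (hemp.2 he)] at htwo
          rw [if_pos he] at hcov
          omega
        · rw [if_neg (fun hh => he (hemp.1 hh))] at htwo
          rw [if_neg he] at hcov
          omega
      have hsub := cov_sub hV hF
      rw [hVe] at hsub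
      obtain ⟨y, hy, hFs⟩ := one_strong ((Icc 1 n).erase x) (Fs F) (by rw [hc]; omega) hsub
        (cov_strong hF) hd
      have hodd : Odd (((Icc 1 n).erase x).card + 1) := by
        rw [hc]
        exact ⟨m, by omega⟩
      have hbV : bV ((Icc 1 n).erase x) 1 y = bV ((Icc 1 n).erase x) 1 x := by
        unfold bV
        rw [if_pos hodd, if_pos hodd]
      rw [hbV] at hFs
      refine ⟨x, hxn, ?_⟩
      have hFx : F = insert {x} (Fs F) := by
        ext A
        rw [Finset.mem_insert]
        unfold Fs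
        rw [Finset.mem_filter]
        constructor
        · intro hA
          by_cases hA1 : A.card = 1
          · obtain ⟨z, hz, hAz⟩ := hmX A hA hA1
            rw [hx, Finset.mem_singleton] at hz
            left
            rw [hAz, hz]
          · exact Or.inr ⟨hA, hA1⟩
        · rintro (rfl | hA)
          · exact hxF
          · exact hA.1
      rw [hFx, hFs, Finset.insert_comm]
    · -- at least two
      exfalso
      have hnum := num_strict (by omega : 6 ≤ n) hs (Or.inl h2)
      generalize (Xs n F).card = s at *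
      generalize kk (n - s) = k at *
      have hsF : s * (Fs F).card ≤ s * (k + 1) := Nat.mul_le_mul_left s hb2
      have e1 : s * (k + 1) = s * k + s := by ring
      have e2 : s * (s + 1) = s * s + s := by ring
      have e3 : 2 * (s + 1) * k = 2 * (s * k) + 2 * k := by ring
      rw [e3] at hnum
      omega

end Pool.Agent.H52.UX
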