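import Pool.Agent.H52.UX.Two
import Pool.Agent.H52.UX.OneE
import Pool.Agent.H52.UX.OneO
import Pool.Agent.H52.UX.Cpy

/-! # UX.Main : all extremal families (complete) -/

open Finset Pool.Agent.H37

namespace Pool.Agent.H52.UX

theorem avoid_ge_two (t : ℕ) (ht : 2 ≤ t) : ∃ n₀ : ℕ, ∀ n ≥ n₀, ∀ F : Finset (Finset ℕ),
    (∀ A ∈ F, A ⊆ Icc 1 n) → (∀ A ∈ F, ∀ B ∈ F, A ≠ B → (A ∩ B).card ≠ t) →
      (WK.disjPairs F = WK.disjPairs (WK.starFamily n t) ↔ IsCopy n F (WK.starFamily n t)) := by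
  obtain ⟨n₀, h⟩ := two_unique t ht
  refine ⟨n₀, fun n hn F hV hF => ⟨fun he => ?_, disjPairs_copy⟩⟩
  obtain ⟨x, hx, rfl⟩ := h n hn F hV hF he.ge
  exact star_copy hx

theorem strong_one {n : ℕ} (hn : 6 ≤ n) (F : Finset (Finset ℕ)) (hV : ∀ A ∈ F, A ⊆ Icc 1 n)
    (hF : ∀ A ∈ F, ∀ B ∈ F, (A ∩ B).card ≠ 1) :
    WK.disjPairs F = WK.disjPairs (WK.starFamily n 1) ↔ IsCopy n F (WK.starFamily n 1) := by
  refine ⟨fun he => ?_, disjPairs_copy⟩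
  have h1 : Pool.Agent.H45.TA.kk (Icc 1 n).card ≤ Pool.Agent.H26.LT.COne.disjPairs F := by
    rw [Nat.card_Icc, Nat.add_sub_cancel]
    exact (Pool.Agent.H26.LT.COne.kk_le_star n).trans he.ge
  obtain ⟨x, hx, rfl⟩ := one_strong (Icc 1 n) F
    (by rw [Nat.card_Icc, Nat.add_sub_cancel]; exact hn) hV hF h1
  rw [one_small]
  exact star_copy hx

theorem distinct_even {n : ℕ} (hn : 6 ≤ n) (he : Even n) (F : Finset (Finset ℕ))
    (hV : ∀ A ∈ F, A ⊆ Icc 1 n) (hF : ∀ A ∈ F, ∀ B ∈ F, A ≠ B → (A ∩ B).card ≠ 1) :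
    WK.disjPairs F = WK.disjPairs (WK.starFamily n 1) ↔ IsCopy n F (WK.starFamily n 1) := by
  refine ⟨fun h => ?_, disjPairs_copy⟩
  obtain ⟨x, hx, rfl⟩ := lit_even hn he F hV hF
    ((Pool.Agent.H26.LT.COne.kk_le_star n).trans h.ge)
  rw [one_small]
  exact star_copy hx

theorem distinct_odd {n : ℕ} (hn : 7 ≤ n) (ho : Odd n) (F : Finset (Finset ℕ))
    (hV : ∀ A ∈ F, A ⊆ Icc 1 n) (hF : ∀ A ∈ F, ∀ B ∈ F, A ≠ B → (A ∩ B).card ≠ 1) :
    WK.disjPairs F = WK.disjPairs (WK.starFamily n 1) + 1 ↔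
      IsCopy n F (Pool.Agent.H26.LT.COdd.G n) := by
  constructor
  · intro h
    obtain ⟨x, hx, rfl⟩ := lit_odd hn ho F hV hF
      ((Nat.add_le_add_right (Pool.Agent.H26.LT.COne.kk_le_star n) 1).trans h.ge)
    exact odd_copy ho hx
  · intro h
    have h1 := disjPairs_copy h
    have h2 := Pool.Agent.H26.LT.COdd.disjPairs_G ho
    have h3 := Pool.Agent.H26.LT.COdd.disjPairs_star ho
    have h4 : WK.disjPairs (Pool.Agent.H26.LT.COdd.G n) =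
      Pool.Agent.H26.LT.COdd.disjPairs (Pool.Agent.H26.LT.COdd.G n) := rfl
    have h5 : WK.disjPairs (WK.starFamily n 1) =
      Pool.Agent.H26.LT.COdd.disjPairs (Pool.Agent.H26.LT.COdd.starFamily n 1) := rfl
    omega

end Pool.Agent.H52.UX
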