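import Pool.Agent.H52.UX.GoodU

/-! # UX.OneS : the extremal families for `t = 1`, all members

`emb : Fin V.card ↪ ℕ` with image `V`, and `G = {P : P.map emb ∈ F}` as in `Pool.Agent.H45.TA.pairs_le` (H45/TA/Transfer): `F = G.image (·.map emb)`, `|opairs F| ≤ |dpairs G|` (proof there), and
`(A ∩ B).card ≠ 1` in `G`.  `exists_good`: `G ⊆ G'`, `G'` good, `|dpairs G'| ≤ 2 kk + 1` (`dpairs_fin` for `G'`).  `two_mul_disjPairs`: `2 disjPairs F + [∅ ∈ F] = |opairs F|`.
`∅ ∈ F`: otherwise `(∅,∅)`, `(∅,A)`, `(A,∅)`, `A ∈ G`, are in `dpairs G'` and not in `dpairs G`: `2 kk + 1 + 2 |G| ≤ 2 kk + 1`, so `G = ∅`, `F = ∅`, `disjPairs F = 0 < kk` (`kk_quad` in H26/LT/COne).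
So `∅ ∈ G` and `2 kk + 1 ≤ |dpairs G|`.  `G' = G`: a set `A ∈ G' \ G` is nonempty and `(∅, A) ∈ dpairs G' \ dpairs G`, too many pairs.  `good_unique` for `G`; `P ∈ G ↔ P.map emb ∈ F`,
`(P.map emb).erase (emb x) = (P.erase x).map emb`; `Odd (|V| + 1) ↔ Even |V|`; `mem_bV`. -/

open Finset Pool.Agent.H37 Pool.Agent.H45.TA Pool.Agent.H26.LT.COne

namespace Pool.Agent.H52.UX

theorem one_strong (V : Finset ℕ) (F : Finset (Finset ℕ)) (h6 : 6 ≤ V.card)
    (hV : ∀ A ∈ F, A ⊆ V) (hF : IsStronglyAvoiding 1 F) (h : kk V.card ≤ disjPairs F) :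
    ∃ x ∈ V, F = insert ∅ (bV V 1 x) := by
  classical
  let emb : Fin V.card ↪ ℕ := V.equivFin.symm.toEmbedding.trans (Function.Embedding.subtype _)
  have hemb : (univ : Finset (Fin V.card)).map emb = V := by
    ext x
    rw [Finset.mem_map]
    constructor
    · rintro ⟨i, -, rfl⟩
      exact (V.equivFin.symm i).2
    · intro hx
      refine ⟨V.equivFin ⟨x, hx⟩, Finset.mem_univ _, ?_⟩
      simp [emb]
  have hex : ∀ A, A ⊆ V → ∃ P : Finset (Fin V.card), A = P.map emb := by
    intro A h1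
    rw [← hemb, Finset.subset_map_iff] at h1
    obtain ⟨P, -, rfl⟩ := h1
    exact ⟨P, rfl⟩
  obtain ⟨G, hGm⟩ : ∃ G : Finset (Finset (Fin V.card)), ∀ P, P ∈ G ↔ P.map emb ∈ F :=
    ⟨univ.filter (fun P => P.map emb ∈ F), fun P => by simp⟩
  have hG : ∀ A ∈ G, ∀ B ∈ G, (A ∩ B).card ≠ 1 := by
    intro A hA B hB
    have := hF _ ((hGm A).1 hA) _ ((hGm B).1 hB)
    rwa [← Finset.map_inter, Finset.card_map] at this
  have hsub : opairs F ⊆ (dpairs G).image (fun p => (p.1.map emb, p.2.map emb)) := by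
    intro p hp
    unfold opairs at hp
    rw [Finset.mem_filter, Finset.mem_product] at hp
    obtain ⟨P, hP'⟩ := hex p.1 (hV _ hp.1.1)
    obtain ⟨Q, hQ'⟩ := hex p.2 (hV _ hp.1.2)
    rw [Finset.mem_image]
    refine ⟨(P, Q), ?_, ?_⟩
    · rw [mem_dpairs]
      refine ⟨⟨(hGm P).2 (hP' ▸ hp.1.1), (hGm Q).2 (hQ' ▸ hp.1.2)⟩, ?_⟩
      have := hp.2
      rw [hP', hQ', Finset.disjoint_map] at this
      exact this
    · exact Prod.ext hP'.symm hQ'.symm
  have hop : (opairs F).card ≤ (dpairs G).card :=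
    (Finset.card_le_card hsub).trans Finset.card_image_le
  obtain ⟨G', hG', hGG⟩ := exists_good G hG
  have hb : (dpairs G').card ≤ 2 * kk V.card + 1 := dpairs_fin G' hG'.avoid
  have hd := two_mul_disjPairs F
  have hmono : dpairs G ⊆ dpairs G' := by
    intro p hp
    rw [mem_dpairs] at hp ⊢
    exact ⟨⟨hGG hp.1.1, hGG hp.1.2⟩, hp.2⟩
  have hquad := kk_quad h6
  have hk : 0 < kk V.card := by
    have : 0 < V.card * (V.card + 1) := by positivity
    omega
  have hem : ∀ A ∈ G', (∅, A) ∈ dpairs G' := by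
    intro A hA
    rw [mem_dpairs]
    exact ⟨⟨hG'.empty, hA⟩, Finset.disjoint_empty_left _⟩
  have hempty : ∅ ∈ F := by
    by_contra hno
    have hno' : ∅ ∉ G := fun hh => hno (by simpa using (hGm ∅).1 hh)
    rw [if_neg hno] at hd
    have hne : G.Nonempty := by
      rw [Finset.nonempty_iff_ne_empty]
      rintro hGe
      have : dpairs G = ∅ := by
        rw [hGe]
        unfold dpairs
        simp
      rw [this, Finset.card_empty] at hop
      omega
    obtain ⟨A, hA⟩ := hne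
    have hAne : A ≠ ∅ := fun hh => hno' (hh ▸ hA)
    have h2 : ({(∅, ∅), (∅, A)} : Finset (Finset (Fin V.card) × Finset (Fin V.card))) ⊆
        dpairs G' \ dpairs G := by
      intro p hp
      rw [Finset.mem_insert, Finset.mem_singleton] at hp
      rw [Finset.mem_sdiff]
      rcases hp with rfl | rfl
      · exact ⟨hem _ hG'.empty, fun hh => hno' (mem_dpairs.1 hh).1.1⟩
      · exact ⟨hem _ (hGG hA), fun hh => hno' (mem_dpairs.1 hh).1.1⟩
    have h3 := Finset.card_le_card h2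
    rw [Finset.card_pair (fun hh => hAne (Prod.ext_iff.1 hh).2.symm),
      Finset.card_sdiff_of_subset hmono] at h3
    omega
  rw [if_pos hempty] at hd
  have hGd : 2 * kk V.card + 1 ≤ (dpairs G).card := by omega
  have hemG : ∅ ∈ G := (hGm ∅).2 (by simpa using hempty)
  have hGe : G' ⊆ G := by
    intro A hA
    by_contra hAG
    have h2 : ({(∅, A)} : Finset (Finset (Fin V.card) × Finset (Fin V.card))) ⊆
        dpairs G' \ dpairs G := by
      intro p hp
      rw [Finset.mem_singleton] at hp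
      rw [Finset.mem_sdiff, hp]
      exact ⟨hem _ hA, fun hh => hAG (mem_dpairs.1 hh).1.2⟩
    have h3 := Finset.card_le_card h2
    rw [Finset.card_singleton, Finset.card_sdiff_of_subset hmono] at h3
    omega
  have hgood : Good G := by
    rw [Finset.Subset.antisymm hGG hGe]
    exact hG'
  obtain ⟨x, hx⟩ := good_unique h6 hgood hGd
  have hxV : emb x ∈ V := by
    have h0 : emb x ∈ (univ : Finset (Fin V.card)).map emb :=
      Finset.mem_map.2 ⟨x, Finset.mem_univ _, rfl⟩
    rwa [hemb] at h0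
  refine ⟨emb x, hxV, ?_⟩
  ext A
  rw [Finset.mem_insert, mem_bV]
  by_cases hAV : A ⊆ V
  · obtain ⟨P, rfl⟩ := hex A hAV
    rw [← hGm, hx, Finset.map_eq_empty, ← Finset.map_erase, Finset.card_map, Finset.card_map,
      Nat.odd_add_one, Nat.not_odd_iff_even]
    refine or_congr Iff.rfl ⟨fun hh => ⟨hAV, ?_⟩, fun hh => ?_⟩
    · rcases hh with hh | hh
      · exact Or.inl ⟨hh.1, by omega⟩
      · exact Or.inr ⟨hh.1, by omega⟩
    · rcases hh.2 with hh | hh
      · exact Or.inl ⟨hh.1, by omega⟩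
      · exact Or.inr ⟨hh.1, by omega⟩
  · constructor
    · intro hA
      exact absurd (hV A hA) hAV
    · rintro (rfl | hA)
      · exact absurd (Finset.empty_subset _) hAV
      · exact absurd hA.1 hAV

end Pool.Agent.H52.UX
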