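import Pool.Agent.H52.UX.Conn
import Pool.Agent.H37.WK.Shift

/-! # UX.UnshA : undoing a shift, `n + t` even, exceptional element `a`

`V = Icc 1 n`, `2 q = n + t`, `X = V \ {a, b}`, `|X| = n - 2`, `c = q - 1`, so `|X| < 2 c`.  `U' = shiftFam U a b = bV V t a`.
(i) `A ∈ U` has `q ≤ |A|` (`|sh A| = |A|`, `q ≤ |(sh A).erase a|`), `A ⊆ V`.
(ii) every `A ⊆ V` with `q + 1 ≤ |A|` is in `U`: let `Big` be the family of these sets; `Big ⊆ U'`; `sh U a b` maps `U ∩ Big`
injectively onto `U' ∩ Big = Big`, so `|U ∩ Big| = |Big|` and `U ∩ Big = Big`.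
(iii) `C ∈ X.powersetCard c`: exactly one of `insert a C`, `insert b C` is in `U`.  At least one: `insert b C ∈ U'`, so it is `sh A`
with `A ∈ U`, `A = insert b C` or (moved) `A.erase a = C`, `A = insert a C`.  Not both: then `sh (insert a C) = insert a C ∈ U'`, but
`|(insert a C).erase a| = q - 1`.
(iv) `P C := insert a C ∈ U`.  If `C ∪ D = X` and `P C`, `¬ P D`: `insert b D ∈ U`, `|insert a C ∩ insert b D| = |C ∩ D| = 2c - (n - 2) = t`,
contradiction to `hU.2`.  So `conn` applies: all `P C` or none.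
(v) a set `A ⊆ X` with `|A| = q` is in `U'` and `A = sh A'` is only possible with `A' = A` (moved sets contain `b`), so `A ∈ U`.
`A ∈ U`, `|A| = q`, `a ∈ A`: `sh A ≠ A` (as `A ∉ U'`), so `b ∉ A`.
Result: if some (hence every) `P C` holds then `U = bV V t b`, otherwise `U = bV V t a`: a set `A` of size `q` is `⊆ X`, or `insert a C`, or `insert b C`,
or contains `a` and `b` (then it is not in `U`, by (v)); sets of size `> q` are in both sides by (ii). -/

open Finset Pool.Agent.H37

namespace Pool.Agent.H52.UX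

private lemma ua_sh_cases (U : Finset (Finset ℕ)) (a b : ℕ) (A : Finset ℕ) :
    (a ∈ A ∧ b ∉ A ∧ insert b (A.erase a) ∉ U ∧ WK.sh U a b A = insert b (A.erase a)) ∨
      WK.sh U a b A = A := by
  unfold WK.sh
  split_ifs with h
  · exact Or.inl ⟨h.1, h.2.1, h.2.2, rfl⟩
  · exact Or.inr rfl

private lemma ua_mem_shift {U : Finset (Finset ℕ)} {a b : ℕ} {A : Finset ℕ} (h : A ∈ U) :
    WK.sh U a b A ∈ WK.shiftFam U a b := mem_image_of_mem _ h

/-- (i) -/
private lemma ua_size {n t a b q : ℕ} {U : Finset (Finset ℕ)} (hq : 2 * q = n + t)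
    (hab : a ≠ b) (h : ∀ B, B ∈ WK.shiftFam U a b ↔ B ⊆ Icc 1 n ∧ q ≤ (B.erase a).card)
    {A : Finset ℕ} (hA : A ∈ U) : q ≤ A.card := by
  have h1 := ((h _).1 (ua_mem_shift (a := a) (b := b) hA)).2
  have h2 := WK.sh_card U hab A
  have h3 := card_le_card (erase_subset a (WK.sh U a b A))
  omega

/-- (ii) -/
private lemma ua_big {n t a b q : ℕ} {U : Finset (Finset ℕ)}
    (hU : WK.Fam (Icc 1 n) (t + 1) U) (hab : a ≠ b)
    (h : ∀ B, B ∈ WK.shiftFam U a b ↔ B ⊆ Icc 1 n ∧ q ≤ (B.erase a).card)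
    {A : Finset ℕ} (hA : A ⊆ Icc 1 n) (hA2 : q + 1 ≤ A.card) : A ∈ U := by
  classical
  set Big : Finset (Finset ℕ) := (Icc 1 n).powerset.filter (fun B => q + 1 ≤ B.card) with hBig
  have h1 : Big ⊆ (U ∩ Big).image (WK.sh U a b) := by
    intro B hB
    obtain ⟨hB1, hB2⟩ := mem_filter.1 hB
    have hB1' := mem_powerset.1 hB1
    have hB3 : B ∈ WK.shiftFam U a b := by
      rw [h]
      refine ⟨hB1', ?_⟩
      have := pred_card_le_card_erase (s := B) (a := a)
      omega
    obtain ⟨A', hA', rfl⟩ := mem_image.1 hB3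
    refine mem_image_of_mem _ (mem_inter.2 ⟨hA', ?_⟩)
    rw [hBig, mem_filter, mem_powerset]
    refine ⟨hU.1 A' hA', ?_⟩
    rw [WK.sh_card U hab] at hB2
    exact hB2
  have h2 : Big.card ≤ (U ∩ Big).card := (card_le_card h1).trans card_image_le
  have h3 : U ∩ Big = Big := eq_of_subset_of_card_le inter_subset_right h2
  have h4 : A ∈ Big := by
    rw [hBig, mem_filter, mem_powerset]
    exact ⟨hA, hA2⟩
  rw [← h3] at h4
  exact (mem_inter.1 h4).1

theorem unsh_a {n t a b : ℕ} {U : Finset (Finset ℕ)} (ht : 1 ≤ t)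
    (hU : WK.Fam (Icc 1 n) (t + 1) U) (ha : a ∈ Icc 1 n) (hb : b ∈ Icc 1 n) (hab : a ≠ b)
    (ho : ¬ Odd (n + t)) (h : WK.shiftFam U a b = bV (Icc 1 n) t a) :
    U = bV (Icc 1 n) t a ∨ U = bV (Icc 1 n) t b := by
  classical
  have hcV : (Icc 1 n).card = n := by rw [Nat.card_Icc, Nat.add_sub_cancel]
  have ha' := mem_Icc.1 ha
  have hb' := mem_Icc.1 hb
  obtain ⟨q, hq'⟩ := Nat.not_odd_iff_even.1 ho
  have hq : 2 * q = n + t := by omega
  have hq1 : 1 ≤ q := by omega
  have hbV : ∀ x (B : Finset ℕ), B ∈ bV (Icc 1 n) t x ↔ B ⊆ Icc 1 n ∧ q ≤ (B.erase x).card := by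
    intro x B
    rw [mem_bV, hcV]
    constructor
    · rintro ⟨h1, h2 | h2⟩
      · exact absurd h2.1 ho
      · exact ⟨h1, by omega⟩
    · rintro ⟨h1, h2⟩
      exact ⟨h1, Or.inr ⟨ho, by omega⟩⟩
  have hS : ∀ B, B ∈ WK.shiftFam U a b ↔ B ⊆ Icc 1 n ∧ q ≤ (B.erase a).card := by
    intro B
    rw [h]
    exact hbV a B
  have hsize : ∀ A ∈ U, q ≤ A.card := fun A hA => ua_size hq hab hS hA
  have hbig : ∀ A, A ⊆ Icc 1 n → q + 1 ≤ A.card → A ∈ U := fun A h1 h2 => ua_big hU hab hS h1 h2
  -- the sets in the middle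
  have hnone : ∀ A, A ⊆ Icc 1 n → a ∉ A → b ∉ A → A.card = q → A ∈ U := by
    intro A hAV haA hbA hcA
    have h1 : A ∈ WK.shiftFam U a b := by
      rw [hS, erase_eq_of_notMem haA]
      exact ⟨hAV, hcA.ge⟩
    obtain ⟨A', hA', h2⟩ := mem_image.1 h1
    rcases ua_sh_cases U a b A' with h3 | h3
    · exfalso
      apply hbA
      rw [← h2, h3.2.2.2]
      exact mem_insert_self _ _
    · rw [h3] at h2
      rwa [← h2]
  have hboth : ∀ A ∈ U, A.card = q → a ∈ A → b ∉ A := by
    intro A hA hcA haA hbA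
    rcases ua_sh_cases U a b A with h3 | h3
    · exact h3.2.1 hbA
    · have h4 := ((hS _).1 (ua_mem_shift (a := a) (b := b) hA)).2
      rw [h3, card_erase_of_mem haA] at h4
      omega
  set X : Finset ℕ := Icc 1 n \ {a, b} with hX
  have hXa : a ∉ X := by simp [hX]
  have hXb : b ∉ X := by simp [hX]
  have hXV : X ⊆ Icc 1 n := sdiff_subset
  have hXc : X.card = n - 2 := by
    rw [hX, card_sdiff_of_subset, hcV, card_pair hab]
    intro x hx
    rcases mem_insert.1 hx with rfl | hx
    · exact ha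
    · rw [mem_singleton] at hx
      rw [hx]
      exact hb
  have hn2 : 2 ≤ n := by
    have h1 : ({a, b} : Finset ℕ) ⊆ Icc 1 n := by
      intro x hx
      rcases mem_insert.1 hx with rfl | hx
      · exact ha
      · rw [mem_singleton] at hx
        rw [hx]
        exact hb
    have h2 := card_le_card h1
    rw [card_pair hab, hcV] at h2
    exact h2
  have hmemX : ∀ C ∈ X.powersetCard (q - 1), C ⊆ X ∧ C.card = q - 1 ∧ a ∉ C ∧ b ∉ C := by
    intro C hC
    obtain ⟨h1, h2⟩ := mem_powersetCard.1 hC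
    exact ⟨h1, h2, fun hh => hXa (h1 hh), fun hh => hXb (h1 hh)⟩
  have hins : ∀ C ∈ X.powersetCard (q - 1), ∀ x ∈ Icc 1 n, insert x C ⊆ Icc 1 n := by
    intro C hC x hx
    exact insert_subset hx ((hmemX C hC).1.trans hXV)
  -- at least one
  have hone : ∀ C ∈ X.powersetCard (q - 1), insert a C ∈ U ∨ insert b C ∈ U := by
    intro C hC
    obtain ⟨hC1, hC2, hC3, hC4⟩ := hmemX C hC
    have h1 : insert b C ∈ WK.shiftFam U a b := by
      rw [hS]
      refine ⟨hins C hC b hb, ?_⟩
      rw [erase_eq_of_notMem, card_insert_of_notMem hC4]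
      · omega
      · intro hh
        rcases mem_insert.1 hh with hh | hh
        · exact hab hh
        · exact hC3 hh
    obtain ⟨A', hA', h2⟩ := mem_image.1 h1
    rcases ua_sh_cases U a b A' with h3 | h3
    · left
      obtain ⟨h4, h5, h6, h7⟩ := h3
      rw [h7] at h2
      have h8 : A'.erase a = C := by
        have h9 : b ∉ A'.erase a := fun hh => h5 (mem_of_mem_erase hh)
        rw [← erase_insert h9, ← erase_insert hC4, h2]
      rw [← h8, insert_erase h4]
      exact hA'
    · right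
      rw [h3] at h2
      rwa [← h2]
  -- not both
  have hnb : ∀ C ∈ X.powersetCard (q - 1), insert a C ∈ U → insert b C ∉ U := by
    intro C hC h1 h2
    obtain ⟨hC1, hC2, hC3, hC4⟩ := hmemX C hC
    rcases ua_sh_cases U a b (insert a C) with h3 | h3
    · apply h3.2.2.1
      rw [erase_insert hC3]
      exact h2
    · have h4 := ((hS _).1 (ua_mem_shift (a := a) (b := b) h1)).2
      rw [h3, erase_insert hC3] at h4
      omega
  have hstep : ∀ C ∈ X.powersetCard (q - 1), ∀ D ∈ X.powersetCard (q - 1), C ∪ D = X →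
      insert a C ∈ U → insert a D ∈ U := by
    intro C hC D hD hCD h1
    by_contra h2
    have h3 : insert b D ∈ U := (hone D hD).resolve_left h2
    obtain ⟨hC1, hC2, hC3, hC4⟩ := hmemX C hC
    obtain ⟨hD1, hD2, hD3, hD4⟩ := hmemX D hD
    have h4 := hU.2 _ h1 _ h3
    have h5 : insert a C ∩ insert b D = C ∩ D := by
      ext x
      simp only [mem_inter, mem_insert]
      constructor
      · rintro ⟨h6 | h6, h7 | h7⟩
        · exact absurd (h6.symm.trans h7) hab
        · exact absurd (h6 ▸ h7) hD3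
        · exact absurd (h7 ▸ h6) hC4
        · exact ⟨h6, h7⟩
      · rintro ⟨h6, h7⟩
        exact ⟨Or.inr h6, Or.inr h7⟩
    rw [h5] at h4
    have h6 := card_union_add_card_inter C D
    rw [hCD, hXc, hC2, hD2] at h6
    omega
  have hconn := conn (X := X) (c := q - 1) (by rw [hXc]; omega)
    (P := fun C => insert a C ∈ U) (fun C hC D hD hCD =>
      ⟨hstep C hC D hD hCD, hstep D hD C hC (by rw [union_comm]; exact hCD)⟩)
  -- a set of size q containing x, x in {a, b}, not the other
  have hform : ∀ A, A ⊆ Icc 1 n → A.card = q → ∀ x y, (x = a ∧ y = b ∨ x = b ∧ y = a) → x ∈ A → y ∉ A →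
      A.erase x ∈ X.powersetCard (q - 1) := by
    intro A hAV hcA x y hxy hxA hyA
    rw [mem_powersetCard]
    refine ⟨?_, by rw [card_erase_of_mem hxA, hcA]⟩
    intro z hz
    obtain ⟨hz1, hz2⟩ := mem_erase.1 hz
    rw [hX, mem_sdiff]
    refine ⟨hAV hz2, ?_⟩
    intro hz3
    rcases mem_insert.1 hz3 with hz4 | hz4
    · rcases hxy with ⟨h5, h6⟩ | ⟨h5, h6⟩
      · exact hz1 (hz4.trans h5.symm)
      · apply hyA
        rw [h6, ← hz4]
        exact hz2
    · rw [mem_singleton] at hz4
      rcases hxy with ⟨h5, h6⟩ | ⟨h5, h6⟩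
      · apply hyA
        rw [h6, ← hz4]
        exact hz2
      · exact hz1 (hz4.trans h5.symm)
  by_cases hP : ∃ C ∈ X.powersetCard (q - 1), insert a C ∈ U
  · right
    obtain ⟨C₀, hC₀, hC₀U⟩ := hP
    have hall : ∀ C ∈ X.powersetCard (q - 1), insert a C ∈ U :=
      fun C hC => (hconn C₀ hC₀ C hC).1 hC₀U
    ext A
    rw [hbV]
    constructor
    · intro hA
      refine ⟨hU.1 A hA, ?_⟩
      have h1 := hsize A hA
      by_cases h2 : q + 1 ≤ A.card
      · have := pred_card_le_card_erase (s := A) (a := b)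
        omega
      · have h3 : A.card = q := by omega
        by_cases h4 : b ∈ A
        · exfalso
          have h5 : a ∉ A := fun h6 => hboth A hA h3 h6 h4
          have h6 := hform A (hU.1 A hA) h3 b a (Or.inr ⟨rfl, rfl⟩) h4 h5
          apply hnb _ h6 (hall _ h6)
          rw [insert_erase h4]
          exact hA
        · rw [erase_eq_of_notMem h4]
          exact h1
    · rintro ⟨hAV, hA⟩
      by_cases h2 : q + 1 ≤ A.card
      · exact hbig A hAV h2
      · have h3 := card_le_card (erase_subset b A)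
        have h4 : A.card = q := by omega
        have h5 : b ∉ A := by
          intro h6
          rw [card_erase_of_mem h6] at hA
          omega
        by_cases h6 : a ∈ A
        · have h7 := hform A hAV h4 a b (Or.inl ⟨rfl, rfl⟩) h6 h5
          have h8 := hall _ h7
          rwa [insert_erase h6] at h8
        · exact hnone A hAV h6 h5 h4
  · left
    ext A
    rw [hbV]
    constructor
    · intro hA
      refine ⟨hU.1 A hA, ?_⟩
      have h1 := hsize A hA
      by_cases h2 : q + 1 ≤ A.card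
      · have := pred_card_le_card_erase (s := A) (a := a)
        omega
      · have h3 : A.card = q := by omega
        by_cases h4 : a ∈ A
        · exfalso
          have h5 : b ∉ A := hboth A hA h3 h4
          have h6 := hform A (hU.1 A hA) h3 a b (Or.inl ⟨rfl, rfl⟩) h4 h5
          apply hP
          refine ⟨_, h6, ?_⟩
          rw [insert_erase h4]
          exact hA
        · rw [erase_eq_of_notMem h4]
          exact h1
    · rintro ⟨hAV, hA⟩
      by_cases h2 : q + 1 ≤ A.card
      · exact hbig A hAV h2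
      · have h3 := card_le_card (erase_subset a A)
        have h4 : A.card = q := by omega
        have h5 : a ∉ A := by
          intro h6
          rw [card_erase_of_mem h6] at hA
          omega
        by_cases h6 : b ∈ A
        · have h7 := hform A hAV h4 b a (Or.inr ⟨rfl, rfl⟩) h6 h5
          have h8 := (hone _ h7).resolve_left (fun h9 => hP ⟨_, h7, h9⟩)
          rwa [insert_erase h6] at h8
        · exact hnone A hAV h5 h6 h4

end Pool.Agent.H52.UX
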