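import Pool.Agent.H52.UX.UnshO
import Pool.Agent.H52.UX.UnshA

/-! # UX.WUniq : uniqueness in the weighted intersection theorem

Let `S U = ∑ A ∈ U, ∑ x ∈ A, x ≤ M = ∑ A ∈ (Icc 1 n).powerset, ∑ x ∈ A, x`.  Induction on `M - S U` (strong).  `Opt (Icc 1 n) t U` by
`WK.weighted` and `hW`.  If `U` is compressed (the condition `hc` of `WK.sym_all`): `WK.endgame ht _ hU (WK.sym_all ht hn hopt hc le_rfl _)` gives
`U ⊆ base n t`, and `U = base n t` because the weights are positive (`WK.sb_pos`; `W (base) = W U + W (base \ U)`); `bV_base`, `x = 1`.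
Otherwise there are `A ∈ U`, `a ∈ A`, `b ∈ Icc 1 n`, `a < b`, `b ∉ A`, `insert b (A.erase a) ∉ U`; then `U' = shiftFam U a b` is a `Fam`
(`shift_fam`), has the same weight (`sh_injOn`, `sh_card`) and `S U < S U'` (copy of the computation in `WK.exists_opt`), so `U' = bV (Icc 1 n) t x` by
induction, and `U` is of the same form: `unsh_odd`; `unsh_ne`, `unsh_b`, `unsh_a`. -/

open Finset Pool.Agent.H37

namespace Pool.Agent.H52.UX

private lemma wuniq_sum_shift (U : Finset (Finset ℕ)) {a b : ℕ} (hab : a < b) {A : Finset ℕ}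
    (hA : A ∈ U) (ha : a ∈ A) (hb : b ∉ A) (hn : insert b (A.erase a) ∉ U) :
    ∑ B ∈ U, ∑ x ∈ B, x < ∑ B ∈ WK.shiftFam U a b, ∑ x ∈ B, x := by
  have hinj := WK.sh_injOn U hab.ne
  have h2 : ∑ B ∈ WK.shiftFam U a b, ∑ x ∈ B, x = ∑ B ∈ U, ∑ x ∈ WK.sh U a b B, x := by
    unfold WK.shiftFam
    rw [Finset.sum_image hinj]
  have h3 : ∀ B : Finset ℕ, a ∈ B → b ∉ B → ∑ x ∈ B, x < ∑ x ∈ insert b (B.erase a), x := by
    intro B haB hbB
    rw [Finset.sum_insert (fun hh => hbB (Finset.mem_of_mem_erase hh))]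
    have := Finset.add_sum_erase B (fun x => x) haB
    omega
  rw [h2]
  apply Finset.sum_lt_sum
  · intro B _
    unfold WK.sh
    split_ifs with h
    · exact (h3 B h.1 h.2.1).le
    · exact le_rfl
  · refine ⟨A, hA, ?_⟩
    unfold WK.sh
    rw [if_pos ⟨ha, hb, hn⟩]
    exact h3 A ha hb

private lemma wuniq_W_shift (n t : ℕ) (U : Finset (Finset ℕ)) {a b : ℕ} (hab : a ≠ b) :
    WK.W n t (WK.shiftFam U a b) = WK.W n t U := by
  unfold WK.W WK.shiftFam
  rw [Finset.sum_image (WK.sh_injOn U hab)]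
  refine Finset.sum_congr rfl fun B _ => ?_
  rw [WK.sh_card U hab]

private lemma wuniq_eq_of_W {n t : ℕ} (ht : 1 ≤ t) {U B : Finset (Finset ℕ)} (h : U ⊆ B)
    (hW : WK.W n t B ≤ WK.W n t U) : U = B := by
  by_contra hne
  have hss : U ⊂ B := lt_of_le_of_ne h hne
  obtain ⟨A, hAB, hAU⟩ := Finset.exists_of_ssubset hss
  have : WK.W n t U < WK.W n t B := by
    unfold WK.W
    exact Finset.sum_lt_sum_of_subset h hAB hAU (WK.sb_pos ht _) (fun _ _ _ => Nat.zero_le _)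
  omega

private lemma wuniq_aux {n t : ℕ} (ht : 1 ≤ t) (hn : 4 * t ^ 3 ≤ n) (k : ℕ) :
    ∀ U : Finset (Finset ℕ), WK.Fam (Icc 1 n) (t + 1) U →
      WK.W n t (WK.base n t) ≤ WK.W n t U →
      (∑ A ∈ (Icc 1 n).powerset, ∑ x ∈ A, x) ≤ k + ∑ A ∈ U, ∑ x ∈ A, x →
      ∃ x ∈ Icc 1 n, U = bV (Icc 1 n) t x := by
  have hn2 : 2 ≤ n := by
    have : 1 ≤ t ^ 3 := Nat.one_le_pow _ _ ht
    omega
  induction k with
  | zero =>
    intro U hU hW hk
    have hopt : WK.Opt (Icc 1 n) t U := by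
      refine ⟨hU, fun U' hU' => ?_⟩
      rw [Nat.card_Icc, Nat.add_sub_cancel]
      exact (WK.weighted ht hn hU').trans hW
    have hc : ∀ A ∈ U, ∀ a ∈ A, ∀ b ∈ Icc 1 n, a < b → b ∉ A → insert b (A.erase a) ∈ U := by
      intro A hA a ha b hb hab hbA
      by_contra hcon
      have h1 := wuniq_sum_shift U hab hA ha hbA hcon
      have hF := WK.shift_fam hU hab.ne hb
      have h2 : ∑ B ∈ WK.shiftFam U a b, ∑ x ∈ B, x ≤ ∑ A ∈ (Icc 1 n).powerset, ∑ x ∈ A, x :=
        Finset.sum_le_sum_of_subset (fun B hB => Finset.mem_powerset.2 (hF.1 B hB))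
      omega
    have h := WK.endgame ht hn2 hU (WK.sym_all ht hn hopt hc le_rfl hn2)
    refine ⟨1, by rw [mem_Icc]; omega, ?_⟩
    rw [bV_base]
    exact wuniq_eq_of_W ht h hW
  | succ k ih =>
    intro U hU hW hk
    have hopt : WK.Opt (Icc 1 n) t U := by
      refine ⟨hU, fun U' hU' => ?_⟩
      rw [Nat.card_Icc, Nat.add_sub_cancel]
      exact (WK.weighted ht hn hU').trans hW
    by_cases hc : ∀ A ∈ U, ∀ a ∈ A, ∀ b ∈ Icc 1 n, a < b → b ∉ A → insert b (A.erase a) ∈ U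
    · have h := WK.endgame ht hn2 hU (WK.sym_all ht hn hopt hc le_rfl hn2)
      refine ⟨1, by rw [mem_Icc]; omega, ?_⟩
      rw [bV_base]
      exact wuniq_eq_of_W ht h hW
    · push Not at hc
      obtain ⟨A, hA, a, ha, b, hb, hab, hbA, hcon⟩ := hc
      have hF := WK.shift_fam hU hab.ne hb
      have h1 := wuniq_sum_shift U hab hA ha hbA hcon
      obtain ⟨x, hx, hUx⟩ := ih (WK.shiftFam U a b) hF
        (by rw [wuniq_W_shift n t U hab.ne]; exact hW) (by omega)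
      have haV : a ∈ Icc 1 n := hU.1 A hA ha
      by_cases ho : Odd (n + t)
      · exact ⟨x, hx, unsh_odd hU hab.ne ho hUx⟩
      · by_cases hxb : x = b
        · subst hxb
          exact ⟨x, hx, unsh_b hU hab.ne ho hUx⟩
        · by_cases hxa : x = a
          · subst hxa
            rcases unsh_a ht hU haV hb hab.ne ho hUx with h | h
            · exact ⟨x, hx, h⟩
            · exact ⟨b, hb, h⟩
          · exact ⟨x, hx, unsh_ne hU hab.ne ho hxa hxb hUx⟩

theorem weighted_unique {n t : ℕ} (ht : 1 ≤ t) (hn : 4 * t ^ 3 ≤ n) {U : Finset (Finset ℕ)}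
    (hU : WK.Fam (Icc 1 n) (t + 1) U) (hW : WK.W n t (WK.base n t) ≤ WK.W n t U) :
    ∃ x ∈ Icc 1 n, U = bV (Icc 1 n) t x :=
  wuniq_aux ht hn _ U hU hW (Nat.le_add_right _ _)

end Pool.Agent.H52.UX
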