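import Pool.Agent.H52.UX.HalfE
import Pool.Agent.H52.UX.WUniq
import Pool.Agent.H52.UX.Lit

/-! # UX.Two : the extremal families for `t ≥ 2`

`F` has no member of size `t` by `lit_strict`, so `F` is strongly avoiding; `R = {A ∈ F : t < |A|}`, `Av (Icc 1 n) t R` (as in `pairs_bound`, H37/AV/HalfA).
`WK.pairs_le` and `WK.pairs_ge`: `disjPairs (small) + W(base) ≤ disjPairs F ≤ disjPairs (small) + W(R) + disjPairs R`, so `2 W(base) ≤ rows` (`rows_card`), `half_eq` and `weighted_unique` (`n ≥ 4 t³`):
`R = bV (Icc 1 n) t x`.  Finally `small n t ⊆ F`: `F' = F ∪ small n t` is strongly avoiding (a member of size `< t` meets nothing in `t` elements), so `disjPairs F' ≤ disjPairs (starFamily n t)`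
(`pairs_bound`, H37/AV/HalfA).  If `S ∈ small n t`, `S ∉ F`: the pairs of `F` are pairs of `F'`, and `{S, ∅}` (if `S ≠ ∅`) or `{∅, {1}}` (if `S = ∅`) is a pair of `F'` and not of `F`
(it contains `S`); so `disjPairs F < disjPairs F' ≤ disjPairs (starFamily n t)` (`card_lt_card`), a contradiction.  `F = R ∪ small n t` since members of size `< t` are in `small n t`. -/

open Finset Pool.Agent.H37 Pool.Agent.H37.AV

namespace Pool.Agent.H52.UX

/-- one more disjoint pair -/
private lemma two_pairs_lt {F F' : Finset (Finset ℕ)} (hFF : F ⊆ F') {S D : Finset ℕ} (hS : S ∈ F')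
    (hSF : S ∉ F) (hD : D ∈ F') (hne : S ≠ D) (hd : S ∩ D = ∅) : WK.disjPairs F < WK.disjPairs F' := by
  unfold WK.disjPairs
  apply card_lt_card
  rw [ssubset_iff_of_subset]
  · refine ⟨{S, D}, ?_, ?_⟩
    · rw [mem_filter, mem_powersetCard]
      refine ⟨⟨?_, card_pair hne⟩, ?_⟩
      · intro A hA
        rw [mem_insert, mem_singleton] at hA
        rcases hA with rfl | rfl
        · exact hS
        · exact hD
      · intro A hA B hB hAB
        rw [mem_insert, mem_singleton] at hA hB
        rcases hA with rfl | rfl <;> rcases hB with rfl | rfl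
        · exact absurd rfl hAB
        · exact hd
        · rw [inter_comm]
          exact hd
        · exact absurd rfl hAB
    · intro h
      rw [mem_filter, mem_powersetCard] at h
      exact hSF (h.1.1 (mem_insert_self _ _))
  · intro P hP
    rw [mem_filter, mem_powersetCard] at hP ⊢
    exact ⟨⟨hP.1.1.trans hFF, hP.1.2⟩, hP.2⟩

theorem two_unique (t : ℕ) (ht : 2 ≤ t) : ∃ n₀ : ℕ, ∀ n ≥ n₀, ∀ F : Finset (Finset ℕ),
    (∀ A ∈ F, A ⊆ Icc 1 n) → (∀ A ∈ F, ∀ B ∈ F, A ≠ B → (A ∩ B).card ≠ t) →
      WK.disjPairs (WK.starFamily n t) ≤ WK.disjPairs F →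
        ∃ x ∈ Icc 1 n, F = bV (Icc 1 n) t x ∪ WK.small n t := by
  classical
  obtain ⟨n₁, hlit⟩ := lit_strict t ht
  obtain ⟨n₂, hhalf⟩ := half_eq t ht
  obtain ⟨n₃, hbound⟩ := pairs_bound t ht
  refine ⟨max (max n₁ n₂) (max n₃ (max (4 * t ^ 3) (t + 1))), fun n hn F hV hF hge => ?_⟩
  have hn1 : n₁ ≤ n := le_trans (le_trans (le_max_left _ _) (le_max_left _ _)) hn
  have hn2 : n₂ ≤ n := le_trans (le_trans (le_max_right _ _) (le_max_left _ _)) hn
  have hn3 : n₃ ≤ n := le_trans (le_trans (le_max_left _ _) (le_max_right _ _)) hn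
  have hn4 : 4 * t ^ 3 ≤ n := le_trans (le_trans (le_trans (le_max_left _ _) (le_max_right _ _))
    (le_max_right _ _)) hn
  have htn : t + 1 ≤ n := le_trans (le_trans (le_trans (le_max_right _ _) (le_max_right _ _))
    (le_max_right _ _)) hn
  -- no member of size `t`
  have hnt : ∀ A ∈ F, A.card ≠ t := by
    intro A hA hc
    exact absurd (hlit n hn1 F hV hF ⟨A, hA, hc⟩) (not_lt.2 hge)
  have hstr : WK.IsStronglyAvoiding t F := by
    intro A hA B hB
    by_cases hAB : A = B
    · rw [hAB, inter_self]
      exact hnt B hB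
    · exact hF A hA B hB hAB
  have h1 := WK.pairs_le (n := n) (t := t) hV hstr
  have h2 := WK.pairs_ge (n := n) (t := t) htn
  have hAv : Av (Icc 1 n) t (F.filter (fun A => t < A.card)) := by
    constructor
    · intro A hA
      exact hV A (mem_filter.1 hA).1
    · intro A hA
      exact (mem_filter.1 hA).2
    · intro A hA B hB
      exact hstr A (mem_filter.1 hA).1 B (mem_filter.1 hB).1
  have h4 := rows_card (by omega) hAv
  obtain ⟨hFam, hW⟩ := hhalf n hn2 _ hAv (by omega)
  obtain ⟨x, hx, hR⟩ := weighted_unique (by omega) hn4 hFam hW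
  refine ⟨x, hx, ?_⟩
  rw [← hR]
  -- the small sets
  have hsm : ∀ A ∈ WK.small n t, A ⊆ Icc 1 n ∧ A.card + 1 ≤ t := by
    intro A hA
    unfold WK.small at hA
    rw [mem_filter, mem_powerset] at hA
    exact hA
  have hsm' : ∀ A : Finset ℕ, A ⊆ Icc 1 n → A.card + 1 ≤ t → A ∈ WK.small n t := by
    intro A h1 h2
    unfold WK.small
    rw [mem_filter, mem_powerset]
    exact ⟨h1, h2⟩
  have hsub : WK.small n t ⊆ F := by
    intro S hS
    by_contra hSF
    have hV' : ∀ A ∈ F ∪ WK.small n t, A ⊆ Icc 1 n := by
      intro A hA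
      rcases mem_union.1 hA with h | h
      · exact hV A h
      · exact (hsm A h).1
    have hstr' : WK.IsStronglyAvoiding t (F ∪ WK.small n t) := by
      intro A hA B hB
      rcases mem_union.1 hA with h | h
      · rcases mem_union.1 hB with h' | h'
        · exact hstr A h B h'
        · have e1 := card_le_card (inter_subset_right (s₁ := A) (s₂ := B))
          have e2 := (hsm B h').2
          omega
      · have e1 := card_le_card (inter_subset_left (s₁ := A) (s₂ := B))
        have e2 := (hsm A h).2
        omega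
    have hb := hbound n hn3 (F ∪ WK.small n t) hV' hstr'
    have hemp : (∅ : Finset ℕ) ∈ F ∪ WK.small n t :=
      mem_union_right _ (hsm' ∅ (empty_subset _) (by rw [card_empty]; omega))
    have hlt : WK.disjPairs F < WK.disjPairs (F ∪ WK.small n t) := by
      by_cases hSe : S = ∅
      · subst hSe
        have hone : ({1} : Finset ℕ) ∈ F ∪ WK.small n t :=
          mem_union_right _ (hsm' {1} (by
            intro y hy
            rw [mem_singleton] at hy
            rw [mem_Icc]
            omega) (by rw [card_singleton]; omega))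
        exact two_pairs_lt subset_union_left hemp hSF hone (by
          intro h
          have := mem_singleton_self 1
          rw [← h] at this
          exact absurd this (notMem_empty 1)) (empty_inter _)
      · exact two_pairs_lt subset_union_left (mem_union_right _ hS) hSF hemp hSe (inter_empty _)
    omega
  ext A
  rw [mem_union, mem_filter]
  constructor
  · intro hA
    rcases lt_or_gt_of_ne (hnt A hA) with h | h
    · exact Or.inr (hsm' A (hV A hA) h)
    · exact Or.inl ⟨hA, h⟩
  · rintro (h | h)
    · exact h.1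
    · exact hsub h

end Pool.Agent.H52.UX
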