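import Pool.Agent.H52.UX.Defs
import Pool.Agent.H37.WK.Shift

/-! # UX.UnshO : undoing a shift, easy cases

`fam_eq`: if `U ⊆ B` and `|shiftFam U a b| = |B|` then `U = B` (`sh_injOn`: `|shiftFam U a b| = |U|`, `Finset.eq_of_subset_of_card_le`).
`unsh_odd` (`n + t` odd): every `A ∈ U` has `sh U a b A ∈ shiftFam U a b = bV ..`, and `|sh U a b A| = |A|` (`sh_card`), so
`A ∈ bV (Icc 1 n) t x` (only the size matters, `A ⊆ Icc 1 n` from `hU`).
`unsh_ne` (`n + t` even, `x ≠ a`, `x ≠ b`): `x ∈ sh U a b A ↔ x ∈ A`, so `|(sh U a b A).erase x| = |A.erase x|`.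
`unsh_b` (`n + t` even, `x = b`): let `A ∈ U`, `A' = sh U a b A`, `A'` in `bV ..`: `n + t ≤ 2 |A'.erase b|`.  If `A' = A`: done.
Otherwise `a ∈ A`, `b ∉ A`, `A' = insert b (A.erase a)`, `|A'.erase b| = |A| - 1 ≤ |A.erase b|`: done again. -/

open Finset Pool.Agent.H37

namespace Pool.Agent.H52.UX

theorem fam_eq {U B : Finset (Finset ℕ)} {a b : ℕ} (hab : a ≠ b) (h : U ⊆ B)
    (hc : WK.shiftFam U a b = B) : U = B := by
  refine Finset.eq_of_subset_of_card_le h ?_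
  rw [← hc]
  unfold WK.shiftFam
  exact Finset.card_image_le

private lemma card_V (n : ℕ) : (Icc 1 n).card = n := by
  rw [Nat.card_Icc, Nat.add_sub_cancel]

private lemma sh_mem {n t a b x : ℕ} {U : Finset (Finset ℕ)} (h : WK.shiftFam U a b = bV (Icc 1 n) t x)
    {A : Finset ℕ} (hA : A ∈ U) : WK.sh U a b A ∈ bV (Icc 1 n) t x := by
  rw [← h]
  exact Finset.mem_image_of_mem _ hA

theorem unsh_odd {n t a b x : ℕ} {U : Finset (Finset ℕ)} (hU : WK.Fam (Icc 1 n) (t + 1) U)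
    (hab : a ≠ b) (ho : Odd (n + t)) (h : WK.shiftFam U a b = bV (Icc 1 n) t x) :
    U = bV (Icc 1 n) t x := by
  refine fam_eq hab (fun A hA => ?_) h
  have h1 := sh_mem h hA
  rw [mem_bV, card_V] at h1 ⊢
  refine ⟨hU.1 A hA, Or.inl ⟨ho, ?_⟩⟩
  rcases h1.2 with h2 | h2
  · have h3 := h2.2
    rwa [WK.sh_card U hab] at h3
  · exact absurd ho h2.1

theorem unsh_ne {n t a b x : ℕ} {U : Finset (Finset ℕ)} (hU : WK.Fam (Icc 1 n) (t + 1) U)
    (hab : a ≠ b) (ho : ¬ Odd (n + t)) (hxa : x ≠ a) (hxb : x ≠ b)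
    (h : WK.shiftFam U a b = bV (Icc 1 n) t x) : U = bV (Icc 1 n) t x := by
  refine fam_eq hab (fun A hA => ?_) h
  have h1 := sh_mem h hA
  rw [mem_bV, card_V] at h1 ⊢
  refine ⟨hU.1 A hA, Or.inr ⟨ho, ?_⟩⟩
  rcases h1.2 with h2 | h2
  · exact absurd h2.1 ho
  · have h3 := h2.2
    have hm : x ∈ WK.sh U a b A ↔ x ∈ A := by
      unfold WK.sh
      split_ifs with h4
      · rw [Finset.mem_insert, Finset.mem_erase]
        exact ⟨fun h5 => h5.elim (fun h6 => absurd h6 hxb) fun h6 => h6.2, fun h5 => Or.inr ⟨hxa, h5⟩⟩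
      · exact Iff.rfl
    have h4 : ((WK.sh U a b A).erase x).card = (A.erase x).card := by
      rw [Finset.card_erase_eq_ite, Finset.card_erase_eq_ite, WK.sh_card U hab]
      by_cases hx : x ∈ A
      · rw [if_pos (hm.2 hx), if_pos hx]
      · rw [if_neg (fun h5 => hx (hm.1 h5)), if_neg hx]
    rwa [h4] at h3

theorem unsh_b {n t a b : ℕ} {U : Finset (Finset ℕ)} (hU : WK.Fam (Icc 1 n) (t + 1) U)
    (hab : a ≠ b) (ho : ¬ Odd (n + t)) (h : WK.shiftFam U a b = bV (Icc 1 n) t b) :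
    U = bV (Icc 1 n) t b := by
  refine fam_eq hab (fun A hA => ?_) h
  have h1 := sh_mem h hA
  rw [mem_bV, card_V] at h1 ⊢
  refine ⟨hU.1 A hA, Or.inr ⟨ho, ?_⟩⟩
  rcases h1.2 with h2 | h2
  · exact absurd h2.1 ho
  · have h3 := h2.2
    unfold WK.sh at h3
    split_ifs at h3 with h4
    · have h5 : b ∉ A.erase a := fun hh => h4.2.1 (Finset.mem_of_mem_erase hh)
      rw [Finset.erase_insert h5, Finset.card_erase_of_mem h4.1] at h3
      rw [Finset.erase_eq_of_notMem h4.2.1]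
      omega
    · exact h3

end Pool.Agent.H52.UX
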